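import Mathlib

/-!
# Hard-core boson algebra and the star inequality
-/

set_option autoImplicit false
set_option linter.unusedSectionVars false

open scoped BigOperators RealInnerProductSpace

namespace Pool.Agent.Run7.h543.Star

/-- annihilation, creation operators of hard-core bosons and the projections on the states with the site empty -/
structure HCB (V : Type) (H : Type) [NormedAddCommGroup H] [InnerProductSpace ℝ H] where
  a : V → H →ₗ[ℝ] H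
  c : V → H →ₗ[ℝ] H
  R : V → H →ₗ[ℝ] H
  adj : ∀ y F G, ⟪F, a y G⟫ = ⟪c y F, G⟫
  comm : ∀ x y F, a x (a y F) = a y (a x F)
  Rcomm : ∀ x y, x ≠ y → ∀ F, R x (a y F) = a y (R x F)
  split : ∀ x F, ‖F‖ ^ 2 = ‖R x F‖ ^ 2 + ‖a x F‖ ^ 2
  Rproj : ∀ x F G, ⟪a x F, G⟫ = ⟪a x F, R x G⟫
  anti : ∀ y F, a y (c y F) + c y (a y F) = F
  comm2 : ∀ y z, y ≠ z → ∀ F, a y (c z F) = c z (a y F)

variable {V : Type} [Fintype V] [DecidableEq V] {H : Type} [NormedAddCommGroup H]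
  [InnerProductSpace ℝ H] (B : HCB V H)

namespace HCB

theorem create_norm (g : V → ℝ) (F : H) :
    ‖∑ y, g y • B.c y F‖ ^ 2 = ‖∑ y, g y • B.a y F‖ ^ 2 +
      ∑ y, g y ^ 2 * (‖F‖ ^ 2 - 2 * ‖B.a y F‖ ^ 2) := by
  rw [← real_inner_self_eq_norm_sq, ← real_inner_self_eq_norm_sq]
  simp only [sum_inner, inner_sum, inner_smul_left, inner_smul_right, RCLike.conj_to_real]
  rw [← Finset.sum_add_distrib]
  refine Finset.sum_congr rfl fun y _ => ?_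
  have key : ∀ z, g z * ⟪B.c z F, B.c y F⟫ =
      g z * ⟪B.a z F, B.a y F⟫ +
        (if z = y then g y * (‖F‖ ^ 2 - 2 * ‖B.a y F‖ ^ 2) else 0) := by
    intro z
    split_ifs with h
    · subst h
      have e1 : ⟪B.c z F, B.c z F⟫ = ‖F‖ ^ 2 - ‖B.a z F‖ ^ 2 := by
        rw [← B.adj z F (B.c z F)]
        have h1 := B.anti z F
        have h2 : B.a z (B.c z F) = F - B.c z (B.a z F) := by
          rw [eq_sub_iff_add_eq]
          exact h1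
        rw [h2, inner_sub_right, real_inner_self_eq_norm_sq, real_inner_comm,
          ← B.adj z (B.a z F) F, real_inner_self_eq_norm_sq]
      rw [e1, real_inner_self_eq_norm_sq]
      ring
    · have e1 : ⟪B.c z F, B.c y F⟫ = ⟪B.a z F, B.a y F⟫ := by
        rw [real_inner_comm, ← B.adj y F (B.c z F), B.comm2 y z (Ne.symm h), real_inner_comm,
          ← B.adj z (B.a y F) F, real_inner_comm]
      rw [e1]
      ring
  rw [Finset.sum_congr rfl fun z _ => key z, Finset.sum_add_distrib, Finset.sum_ite_eq']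
  simp only [Finset.mem_univ, if_true]
  ring

/-- the star inequality at a site -/
theorem star (Ψ : H) (hΨ : ‖Ψ‖ = 1) (x : V) (g : V → ℝ) (hg : g x = 0) :
    ⟪B.a x Ψ, ∑ y, g y • B.a y Ψ⟫ ^ 2 ≤ (‖B.a x Ψ‖ ^ 2 * (1 - ‖B.a x Ψ‖ ^ 2)) *
      (‖∑ y, g y • B.a y Ψ‖ ^ 2 +
        ∑ y, g y ^ 2 * (‖B.a x Ψ‖ ^ 2 - 2 * ‖B.a y (B.a x Ψ)‖ ^ 2)) := by
  set P : H := B.a x Ψ with hP
  set Q : H := B.R x Ψ with hQ
  have hPQ : ‖Q‖ ^ 2 + ‖P‖ ^ 2 = 1 := by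
    rw [hP, hQ, ← B.split, hΨ]
    norm_num
  have hRJ : B.R x (∑ y, g y • B.a y Ψ) = ∑ y, g y • B.a y Q := by
    rw [map_sum]
    refine Finset.sum_congr rfl fun y _ => ?_
    rw [map_smul]
    by_cases hy : x = y
    · subst hy
      rw [hg, zero_smul, zero_smul]
    · rw [B.Rcomm x y hy]
  have haJ : B.a x (∑ y, g y • B.a y Ψ) = ∑ y, g y • B.a y P := by
    rw [map_sum]
    refine Finset.sum_congr rfl fun y _ => ?_
    rw [map_smul, B.comm x y]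
  have hz : ⟪P, ∑ y, g y • B.a y Ψ⟫ = ⟪P, ∑ y, g y • B.a y Q⟫ := by
    rw [hP, B.Rproj x Ψ, hRJ]
  have hz2 : ⟪P, ∑ y, g y • B.a y Q⟫ = ⟪∑ y, g y • B.c y P, Q⟫ := by
    rw [inner_sum, sum_inner]
    refine Finset.sum_congr rfl fun y _ => ?_
    rw [inner_smul_right, inner_smul_left, B.adj]
    simp
  have hJ : ‖∑ y, g y • B.a y Ψ‖ ^ 2 = ‖∑ y, g y • B.a y Q‖ ^ 2 +
      ‖∑ y, g y • B.a y P‖ ^ 2 := by
    rw [B.split x, hRJ, haJ]
  have hK := B.create_norm g P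
  set z : ℝ := ⟪P, ∑ y, g y • B.a y Ψ⟫ with hzdef
  have b1 : z ^ 2 ≤ ‖P‖ ^ 2 * ‖∑ y, g y • B.a y Q‖ ^ 2 := by
    rw [hz, ← mul_pow]
    exact sq_le_sq' (by
      have := abs_real_inner_le_norm P (∑ y, g y • B.a y Q)
      linarith [neg_abs_le ⟪P, ∑ y, g y • B.a y Q⟫]) (real_inner_le_norm _ _)
  have b2 : z ^ 2 ≤ ‖∑ y, g y • B.c y P‖ ^ 2 * ‖Q‖ ^ 2 := by
    rw [hz, hz2, ← mul_pow]
    exact sq_le_sq' (by
      have := abs_real_inner_le_norm (∑ y, g y • B.c y P) Q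
      linarith [neg_abs_le ⟪∑ y, g y • B.c y P, Q⟫]) (real_inner_le_norm _ _)
  have e1 : 1 - ‖P‖ ^ 2 = ‖Q‖ ^ 2 := by linarith
  rw [e1]
  have e2 : ‖∑ y, g y • B.a y Ψ‖ ^ 2 +
        ∑ y, g y ^ 2 * (‖P‖ ^ 2 - 2 * ‖B.a y P‖ ^ 2) =
      ‖∑ y, g y • B.a y Q‖ ^ 2 + ‖∑ y, g y • B.c y P‖ ^ 2 := by
    rw [hJ, hK]
    ring
  rw [e2]
  have s1 := mul_le_mul_of_nonneg_left b1 (sq_nonneg ‖Q‖)
  have s2 := mul_le_mul_of_nonneg_left b2 (sq_nonneg ‖P‖)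
  calc z ^ 2 = ‖Q‖ ^ 2 * z ^ 2 + ‖P‖ ^ 2 * z ^ 2 := by rw [← add_mul, hPQ, one_mul]
    _ ≤ _ := by linarith

/-- correlations of two sites -/
theorem pair (Ψ : H) (x y : V) (hxy : x ≠ y) :
    2 * ⟪B.a x Ψ, B.a y Ψ⟫ ≤ ‖B.a x Ψ‖ ^ 2 + ‖B.a y Ψ‖ ^ 2 - 2 * ‖B.a x (B.a y Ψ)‖ ^ 2 := by
  have h1 : ⟪B.a x Ψ, B.a y Ψ⟫ = ⟪B.R y (B.a x Ψ), B.R x (B.a y Ψ)⟫ := by
    rw [B.Rproj x, B.Rcomm x y hxy, real_inner_comm, B.Rproj y, real_inner_comm,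
      ← B.Rcomm x y hxy]
  have h2 := B.split y (B.a x Ψ)
  have h3 := B.split x (B.a y Ψ)
  rw [B.comm y x] at h2
  have h4 := real_inner_self_nonneg (x := B.R y (B.a x Ψ) - B.R x (B.a y Ψ))
  rw [inner_sub_left, inner_sub_right, inner_sub_right, real_inner_self_eq_norm_sq,
    real_inner_self_eq_norm_sq, real_inner_comm (B.R y (B.a x Ψ)) (B.R x (B.a y Ψ))] at h4
  rw [real_inner_comm] at h4
  rw [h1]
  rw [real_inner_comm (B.R x (B.a y Ψ))] at *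
  linarith

end HCB

end Pool.Agent.Run7.h543.Star
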