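import Mathlib

/-!
# The real inequalities
-/

set_option autoImplicit false

namespace Pool.Agent.Run7.h543.Star

theorem inv_beta (g : ℝ) (hg : 0 < g) (hg1 : g ≤ 1) :
    0 < 1 - (1 - g) ^ 4 ∧ 1 / (1 - (1 - g) ^ 4) ≤ 1 / (4 * g) + 3 / 4 := by
  have h0 : 0 < 1 - (1 - g) ^ 4 := by
    have h1 : (1 - g) ^ 4 < 1 := by
      have : 0 ≤ 1 - g := by linarith
      exact pow_lt_one₀ this (by linarith) (by norm_num)
    linarith
  refine ⟨h0, ?_⟩
  have h3 : 0 ≤ 6 - 8 * g + 3 * g ^ 2 := by nlinarith [sq_nonneg (3 * g - 4)]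
  have key : 0 ≤ (1 - g) * (6 - 8 * g + 3 * g ^ 2) := mul_nonneg (by linarith) h3
  have h5 : 1 / (4 * g) + 3 / 4 = (1 + 3 * g) / (4 * g) := by
    field_simp
  rw [h5, div_le_div_iff₀ h0 (by positivity)]
  have h6 : (1 + 3 * g) * (1 - (1 - g) ^ 4) - 1 * (4 * g) =
      g ^ 2 * ((1 - g) * (6 - 8 * g + 3 * g ^ 2)) := by ring
  have h7 : 0 ≤ g ^ 2 * ((1 - g) * (6 - 8 * g + 3 * g ^ 2)) := mul_nonneg (sq_nonneg g) key
  linarith

/-- linearisation of a square -/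
theorem lin_sq (z r X : ℝ) (hr : 0 < r) (h : z ^ 2 ≤ r * X) : 2 * z - r ≤ X := by
  have h1 : r * (2 * z - r) ≤ r * X := by nlinarith [sq_nonneg (z - r)]
  exact le_of_mul_le_mul_left h1 hr

theorem lin_sq4 (z r X : ℝ) (hr : 0 < r) (h : z ^ 2 ≤ r * X) : 4 * z - 4 * r ≤ X := by
  have h1 : r * (4 * z - 4 * r) ≤ r * X := by nlinarith [sq_nonneg (z - 2 * r)]
  exact le_of_mul_le_mul_left h1 hr

/-- the final inequality -/
theorem arith (s Γ γ ρ r e m1 m2 m3 m4 m8 f0 P1 σ2 z : ℝ) (hs : 0 < s) (hs1 : s ≤ 1)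
    (hΓ : 0 ≤ Γ) (hγ : 0 < γ) (hγD : γ * s ^ 2 ≤ 1) (hρ : 0 ≤ ρ) (hr : 0 ≤ r)
    (hρr : ρ + r = 1) (he : 0 ≤ e) (hf0 : 0 ≤ f0) (hP0 : 0 ≤ P1) (hσ : 0 ≤ σ2)
    (h1 : r - e * s ^ 2 ≤ m1)
    (hS1 : m1 ^ 2 ≤ r * (m2 + s ^ 2 * (1 - 2 * P1)))
    (hP : (P1 - ρ) ^ 2 ≤ σ2)
    (hU : m2 + σ2 ≤ r + s ^ 2)
    (hS2 : (m2 - s ^ 2) ^ 2 ≤ r * (m4 - 2 * m2 * s ^ 2 + s ^ 4 + Γ * s ^ 4))
    (hS3 : (m1 + m2 - s ^ 2) ^ 2 ≤ r * (m2 + 2 * m3 + m4 - 2 * s ^ 2 * (m1 + m2) + s ^ 4 +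
      2 * s ^ 2 + 2 * Γ * s ^ 4))
    (hz : m4 - (1 + Γ) * s ^ 4 ≤ z)
    (hS4 : z ^ 2 ≤ r * (m8 + 3 * ((1 + Γ) * s ^ 4) + ((1 + Γ) * s ^ 4) ^ 2))
    (h42 : m4 ≤ m2) (h12 : -(1 / 4) ≤ m1 + m2)
    (hgap : m8 ≤ m4 - (1 - (1 - γ * s ^ 2) ^ 4) * (m4 - f0 - (m2 - m3))) :
    r * (1 - 1 / (2 * γ)) - e / γ - 26 * (1 + 1 / γ) * ((1 + e) * s + (1 + Γ) * s ^ 2) ≤ f0 := by
  have hγi : 0 < 1 / γ := by positivity
  have hmain : 0 ≤ (1 + e) * s + (1 + Γ) * s ^ 2 := by positivity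
  have hnon : 0 ≤ 26 * (1 + 1 / γ) * ((1 + e) * s + (1 + Γ) * s ^ 2) := by positivity
  have he0 : 0 ≤ e / γ := by positivity
  have hr1 : r ≤ 1 := by linarith
  have hr2 : r * (1 - 1 / (2 * γ)) ≤ r := by
    have : 0 ≤ r * (1 / (2 * γ)) := by positivity
    linarith
  -- trivial cases
  rcases eq_or_lt_of_le hr with hr0 | hr0
  · rw [← hr0] at hr2 ⊢
    linarith
  by_cases hbig : 1 ≤ 26 * ((1 + e) * s + (1 + Γ) * s ^ 2)
  · have h2 : 26 * ((1 + e) * s + (1 + Γ) * s ^ 2) ≤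
        26 * (1 + 1 / γ) * ((1 + e) * s + (1 + Γ) * s ^ 2) := by
      have : 0 ≤ 26 * (1 / γ) * ((1 + e) * s + (1 + Γ) * s ^ 2) := by positivity
      linarith
    linarith
  push Not at hbig
  have hes : (1 + e) * s ≤ 1 / 26 := by
    have : 0 ≤ (1 + Γ) * s ^ 2 := by positivity
    linarith
  have hΓs : (1 + Γ) * s ^ 2 ≤ 1 / 26 := by
    have : 0 ≤ (1 + e) * s := by positivity
    linarith
  have hss : s ≤ 1 / 26 := by
    have := mul_nonneg he hs.le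
    linarith
  set η : ℝ := s ^ 2 with hη
  have hη0 : 0 < η := by positivity
  have e4 : s ^ 4 = η ^ 2 := by rw [hη]; ring
  rw [e4] at hS2 hS3 hz hS4
  have hηs : η = s * s := by rw [hη]; ring
  -- step 1
  have a1 := lin_sq _ _ _ hr0 hS1
  have t1 : r - m2 ≤ η * (1 - 2 * P1) + 2 * e * η := by linarith
  have t2 : r - m2 ≤ (1 + 2 * e) * η := by
    have : 0 ≤ η * P1 := by positivity
    linarith
  have t3 : σ2 ≤ 2 * (1 + e) * η := by linarith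
  have t4 : ρ - 3 / 2 * (1 + e) * s ≤ P1 := by
    by_contra hcon
    push Not at hcon
    have h2 : 3 / 2 * (1 + e) * s < ρ - P1 := by linarith
    have h3 : 0 ≤ 3 / 2 * (1 + e) * s := by positivity
    have h4 : (3 / 2 * (1 + e) * s) ^ 2 < (ρ - P1) ^ 2 := by
      exact pow_lt_pow_left₀ h2 h3 (by norm_num)
    have h5 : (3 / 2 * (1 + e) * s) ^ 2 = 9 / 4 * (1 + e) ^ 2 * η := by rw [hη]; ring
    have h6 : 2 * (1 + e) * η ≤ 9 / 4 * (1 + e) ^ 2 * η := by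
      have : 0 ≤ (1 + e) * η * (9 / 4 * (1 + e) - 2) := by
        have : 0 ≤ 9 / 4 * (1 + e) - 2 := by linarith
        positivity
      linarith
    have h7 : (ρ - P1) ^ 2 = (P1 - ρ) ^ 2 := by ring
    linarith
  have t5 : r - m2 ≤ η * (1 - 2 * ρ + 2 * e + 3 * ((1 + e) * s)) := by
    have : η * (1 - 2 * P1) ≤ η * (1 - 2 * ρ + 3 * ((1 + e) * s)) := by
      refine mul_le_mul_of_nonneg_left ?_ hη0.le
      linarith
    linarith
  -- step 2
  have a2 := lin_sq _ _ _ hr0 hS2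
  have t6 : r - m4 ≤ 2 * (r - m2) + 2 * ρ * η + 2 * (r - m2) * η + (1 + Γ) * η ^ 2 := by
    have : ρ = 1 - r := by linarith
    rw [this]
    linarith
  have t7 : 2 * (r - m2) * η ≤ (1 / 5 * ((1 + e) * s)) * η := by
    have h2 : 2 * (r - m2) ≤ 4 * (1 + e) * η := by linarith
    have h3 : 4 * (1 + e) * η = (4 * s) * ((1 + e) * s) := by rw [hη]; ring
    have h4 : (4 * s) * ((1 + e) * s) ≤ 1 / 5 * ((1 + e) * s) := by
      refine mul_le_mul_of_nonneg_right (by linarith) (by positivity)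
    exact mul_le_mul_of_nonneg_right (by linarith) hη0.le
  have t8 : r - m4 ≤ η * (2 * r + 4 * e + 31 / 5 * ((1 + e) * s) + (1 + Γ) * η) := by
    have : ρ = 1 - r := by linarith
    rw [this] at t5 t6
    linarith
  -- step 3
  have a3 := lin_sq4 _ _ _ hr0 hS3
  have t9 : m2 - m3 ≤ (2 * e + 13 / 4) * η + (1 + Γ) * η ^ 2 := by
    have h2 := mul_le_mul_of_nonneg_left h12 hη0.le
    have h3 : 0 ≤ η ^ 2 := sq_nonneg η
    linarith
  -- step 4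
  have a4 := lin_sq _ _ _ hr0 hS4
  set θ : ℝ := (1 + Γ) * η ^ 2 with hθ
  have hθ0 : 0 ≤ θ := by positivity
  have hθ1 : θ ≤ 1 := by
    have h2 : θ = ((1 + Γ) * η) * η := by rw [hθ]; ring
    rw [h2]
    have h3 : η ≤ 1 := by
      rw [hη]
      exact pow_le_one₀ hs.le hs1
    have h4 : 0 ≤ (1 + Γ) * η := by positivity
    calc ((1 + Γ) * η) * η ≤ ((1 + Γ) * η) * 1 := mul_le_mul_of_nonneg_left h3 h4
      _ ≤ 1 := by linarith
  have t10 : 2 * m4 - r - 6 * θ ≤ m8 := by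
    have h2 : θ ^ 2 ≤ θ := by
      rw [pow_two]
      exact mul_le_of_le_one_left hθ0 hθ1
    linarith
  -- step 5
  obtain ⟨hβ0, hβ⟩ := inv_beta (γ * η) (by positivity) hγD
  set β : ℝ := 1 - (1 - γ * η) ^ 4 with hβdef
  have t11 : β * (m4 - (m2 - m3)) - (r - m4 + 6 * θ) ≤ β * f0 := by
    have h2 : β * (m4 - f0 - (m2 - m3)) = β * (m4 - (m2 - m3)) - β * f0 := by ring
    rw [h2] at hgap
    linarith
  set E4 : ℝ := η * (2 * r + 4 * e + 31 / 5 * ((1 + e) * s) + (1 + Γ) * η) with hE4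
  have hE40 : 0 ≤ E4 := by positivity
  have t12 : m4 - (m2 - m3) - (E4 + 6 * θ) * (1 / β) ≤ f0 := by
    have h2 : β * (m4 - (m2 - m3)) - (E4 + 6 * θ) ≤ β * f0 := by linarith
    have h3 : m4 - (m2 - m3) - (E4 + 6 * θ) * (1 / β) =
        (β * (m4 - (m2 - m3)) - (E4 + 6 * θ)) / β := by
      field_simp
    rw [h3, div_le_iff₀ hβ0]
    linarith
  have t13 : (E4 + 6 * θ) * (1 / β) ≤ (E4 + 6 * θ) * (1 / (4 * (γ * η)) + 3 / 4) :=
    mul_le_mul_of_nonneg_left hβ (by positivity)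
  have t14 : (E4 + 6 * θ) * (1 / (4 * (γ * η)) + 3 / 4) =
      (1 / γ) * (r / 2 + e + 31 / 20 * ((1 + e) * s) + 7 / 4 * ((1 + Γ) * η)) +
      3 / 4 * (E4 + 6 * θ) := by
    rw [hE4, hθ]
    field_simp
    ring
  have t15 : r / (2 * γ) = (1 / γ) * (r / 2) := by
    field_simp
  have t16 : e / γ = (1 / γ) * e := by
    field_simp
  have t17 : r * (1 - 1 / (2 * γ)) = r - r / (2 * γ) := by ring
  have hs26 : η ≤ 1 / 26 * s := by
    rw [hηs]
    exact mul_le_mul_of_nonneg_right hss hs.le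
  have hη1 : η ≤ s := by linarith
  have t18 : E4 ≤ 5 / 4 * ((1 + e) * s) + (1 + Γ) * η := by
    -- E4 = η (2 r + 4 e) + ...
    have h2 : η * (2 * r + 4 * e) ≤ 4 * ((1 + e) * η) := by
      have h9 := mul_le_mul_of_nonneg_left hr1 hη0.le
      linarith
    have h3 : (1 + e) * η ≤ 1 / 26 * ((1 + e) * s) := by
      have : (1 + e) * η ≤ (1 + e) * (1 / 26 * s) :=
        mul_le_mul_of_nonneg_left hs26 (by linarith)
      linarith
    have h4 : η * (31 / 5 * ((1 + e) * s)) ≤ 1 / 26 * (31 / 5 * ((1 + e) * s)) := by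
      refine mul_le_mul_of_nonneg_right (by linarith) (by positivity)
    have h5 : η * ((1 + Γ) * η) ≤ 1 * ((1 + Γ) * η) :=
      mul_le_mul_of_nonneg_right (by linarith) (by positivity)
    have h6 : 0 ≤ (1 + e) * s := by positivity
    have h7 : 0 ≤ (1 + Γ) * η := by positivity
    rw [hE4]
    linarith
  have t19 : θ ≤ (1 + Γ) * η := by
    rw [hθ]
    have h5 : η * ((1 + Γ) * η) ≤ 1 * ((1 + Γ) * η) :=
      mul_le_mul_of_nonneg_right (by linarith) (by positivity)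
    linarith
  have t20 : (2 * e + 13 / 4) * η ≤ (1 + e) * s := by
    have h2 : (2 * e + 13 / 4) * η ≤ 13 / 4 * ((1 + e) * η) := by
      have h9 := mul_nonneg he hη0.le
      linarith
    have h3 : (1 + e) * η ≤ 1 / 26 * ((1 + e) * s) := by
      have : (1 + e) * η ≤ (1 + e) * (1 / 26 * s) :=
        mul_le_mul_of_nonneg_left hs26 (by linarith)
      linarith
    have h6 : 0 ≤ (1 + e) * s := by positivity
    linarith
  set A : ℝ := (1 + e) * s with hA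
  set C : ℝ := (1 + Γ) * η with hC
  have hA0 : 0 ≤ A := by positivity
  have hC0 : 0 ≤ C := by positivity
  have t21 : 0 ≤ (1 / γ) * A := by positivity
  have t22 : 0 ≤ (1 / γ) * C := by positivity
  have t23 : 26 * (1 + 1 / γ) * (A + C) =
      26 * A + 26 * C + 26 * ((1 / γ) * A) + 26 * ((1 / γ) * C) := by ring
  have t24 : (1 / γ) * (r / 2 + e + 31 / 20 * A + 7 / 4 * C) =
      (1 / γ) * (r / 2) + (1 / γ) * e + 31 / 20 * ((1 / γ) * A) + 7 / 4 * ((1 / γ) * C) := by ring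
  rw [t17, t15, t16, t23]
  rw [t24] at t14
  linarith

end Pool.Agent.Run7.h543.Star
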