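import Mathlib

/-!
# Hard-core bosons on a finite graph

A wave function of hard-core bosons on the vertex set `V` is a function `Ψ` of the set `S` of the
occupied vertices. The values are in a real inner product space `E`: the case `E = ℂ` gives the pure
states, `E = ℂ^m` the mixed states (purified).
-/

set_option autoImplicit false

open scoped BigOperators

namespace Pool.Agent.Run7.h543.Star

variable {V : Type} [Fintype V] [DecidableEq V] {E : Type} [NormedAddCommGroup E]

/-- annihilation of the particle at `x` -/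
def ann (x : V) (Ψ : Finset V → E) : Finset V → E :=
  fun S => if x ∈ S then 0 else Ψ (insert x S)

/-- kinetic energy `∑_{edges x y} ‖(b_x - b_y) Ψ‖²` of hard-core bosons on the graph `G`: this is
`⟨Ψ, (∑_i L_i) Ψ⟩`, where `L` is the graph Laplacian, and `Ψ` vanishes if two particles are at the
same vertex -/
noncomputable def kin (G : SimpleGraph V) [DecidableRel G.Adj] (Ψ : Finset V → E) : ℝ :=
  ∑ x : V, ∑ y : V, if G.Adj x y then (∑ S : Finset V, ‖ann x Ψ S - ann y Ψ S‖ ^ 2) / 2 else 0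

/-- total energy, with the potential energy `U S` of the configuration `S` -/
noncomputable def energy (G : SimpleGraph V) [DecidableRel G.Adj] (U : Finset V → ℝ)
    (Ψ : Finset V → E) : ℝ :=
  kin G Ψ + ∑ S : Finset V, U S * ‖Ψ S‖ ^ 2

/-- `Ψ` is a normalised wave function of `N` particles -/
def IsState (N : ℕ) (Ψ : Finset V → E) : Prop :=
  ∑ S : Finset V, ‖Ψ S‖ ^ 2 = 1 ∧ ∀ S : Finset V, S.card ≠ N → Ψ S = 0

/-- number of particles in the condensate: `⟨Ψ, b₀† b₀ Ψ⟩` with `b₀ = |V|^(-1/2) ∑ x, b_x`, which is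
`(1 / |V|) ∑_{x, y} ⟨Ψ, b_x† b_y Ψ⟩` -/
noncomputable def cond (Ψ : Finset V → E) : ℝ :=
  (∑ S : Finset V, ‖∑ x : V, ann x Ψ S‖ ^ 2) / Fintype.card V

/-- the graph `G` has the spectral gap `γ`: the second eigenvalue of its Laplacian is at least `γ` -/
def HasGap (G : SimpleGraph V) [DecidableRel G.Adj] (γ : ℝ) : Prop :=
  ∀ f : V → ℝ, ∑ x, f x = 0 →
    γ * ∑ x, f x ^ 2 ≤ ∑ x, ∑ y, if G.Adj x y then (f x - f y) ^ 2 / 2 else 0

/-- `b`, `ε` is a spectral decomposition of the Hamiltonian of `N` particles: the `b i` are an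
orthonormal basis of the space of the wave functions of `N` particles, and the energy of
`∑ z_i b_i` is `∑ |z_i|² ε_i`. -/
structure IsSpectral (G : SimpleGraph V) [DecidableRel G.Adj] (U : Finset V → ℝ) (N : ℕ) {m : ℕ}
    (b : Fin m → Finset V → ℂ) (ε : Fin m → ℝ) : Prop where
  sector : ∀ i S, S.card ≠ N → b i S = 0
  orth : ∀ i j, ∑ S, (starRingEnd ℂ) (b i S) * b j S = if i = j then 1 else 0
  complete : ∀ Ψ : Finset V → ℂ, (∀ S, S.card ≠ N → Ψ S = 0) →
    ∃ z : Fin m → ℂ, Ψ = fun S => ∑ i, z i * b i S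
  energy_eq : ∀ z : Fin m → ℂ,
    energy G U (fun S => ∑ i, z i * b i S) = ∑ i, ‖z i‖ ^ 2 * ε i

/-- number of particles in the condensate in the canonical Gibbs state at temperature `T` -/
noncomputable def gibbsCond {m : ℕ} (b : Fin m → Finset V → ℂ) (ε : Fin m → ℝ) (T : ℝ) : ℝ :=
  (∑ i, Real.exp (-(ε i / T)) * cond (b i)) / ∑ i, Real.exp (-(ε i / T))

end Pool.Agent.Run7.h543.Star
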