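import Pool.Agent.Run7.h543.Star.Alg
import Pool.Agent.Run7.h543.Star.Defs

set_option autoImplicit false
set_option linter.unusedSectionVars false

open scoped BigOperators RealInnerProductSpace

namespace Pool.Agent.Run7.h543.Star

variable {V : Type} [Fintype V] [DecidableEq V] {E : Type} [NormedAddCommGroup E]
  [InnerProductSpace ℝ E]

/-- creation -/
def cre (x : V) (Ψ : Finset V → E) : Finset V → E :=
  fun S => if x ∈ S then Ψ (S.erase x) else 0

/-- projection -/
def emp (x : V) (Ψ : Finset V → E) : Finset V → E :=
  fun S => if x ∈ S then 0 else Ψ S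

theorem sum_shift (x : V) (h : Finset V → ℝ) :
    ∑ S : Finset V, (if x ∈ S then 0 else h (insert x S)) =
      ∑ S : Finset V, (if x ∈ S then h S else 0) := by
  have e1 : ∑ S : Finset V, (if x ∈ S then 0 else h (insert x S)) =
      ∑ S ∈ Finset.univ.filter (fun S : Finset V => x ∉ S), h (insert x S) := by
    rw [Finset.sum_filter]
    refine Finset.sum_congr rfl fun S _ => ?_
    by_cases hx : x ∈ S <;> simp [hx]
  rw [e1, ← Finset.sum_filter]
  refine Finset.sum_nbij' (fun S => insert x S) (fun S => S.erase x) ?_ ?_ ?_ ?_ ?_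
  · intro S hS
    simp
  · intro S hS
    simp
  · intro S hS
    simp only [Finset.mem_filter, Finset.mem_univ, true_and] at hS
    exact Finset.erase_insert hS
  · intro S hS
    simp only [Finset.mem_filter, Finset.mem_univ, true_and] at hS
    exact Finset.insert_erase hS
  · intro S hS
    rfl

abbrev Hil (V E : Type) [Fintype V] [DecidableEq V] [NormedAddCommGroup E] : Type :=
  PiLp 2 (fun _ : Finset V => E)

/-- the algebra of the hard-core bosons on `Finset V → E` -/
noncomputable def hcb (V E : Type) [Fintype V] [DecidableEq V] [NormedAddCommGroup E]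
    [InnerProductSpace ℝ E] : HCB V (Hil V E) where
  a x :=
    { toFun := fun F => WithLp.toLp 2 (ann x F.ofLp)
      map_add' := by
        intro F G
        ext S
        simp only [ann, PiLp.add_apply]
        split_ifs <;> simp
      map_smul' := by
        intro r F
        ext S
        simp only [ann, PiLp.smul_apply, RingHom.id_apply]
        split_ifs <;> simp }
  c x :=
    { toFun := fun F => WithLp.toLp 2 (cre x F.ofLp)
      map_add' := by
        intro F G
        ext S
        simp only [cre, PiLp.add_apply]
        split_ifs <;> simp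
      map_smul' := by
        intro r F
        ext S
        simp only [cre, PiLp.smul_apply, RingHom.id_apply]
        split_ifs <;> simp }
  R x :=
    { toFun := fun F => WithLp.toLp 2 (emp x F.ofLp)
      map_add' := by
        intro F G
        ext S
        simp only [emp, PiLp.add_apply]
        split_ifs <;> simp
      map_smul' := by
        intro r F
        ext S
        simp only [emp, PiLp.smul_apply, RingHom.id_apply]
        split_ifs <;> simp }
  adj := by
    intro x F G
    simp only [PiLp.inner_apply, LinearMap.coe_mk, AddHom.coe_mk]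
    have h1 : ∀ S : Finset V, ⟪F.ofLp S, ann x G.ofLp S⟫ =
        if x ∈ S then 0 else (fun T => ⟪F.ofLp (T.erase x), G.ofLp T⟫) (insert x S) := by
      intro S
      unfold ann
      split_ifs with h
      · simp
      · simp [Finset.erase_insert h]
    have h2 : ∀ S : Finset V, ⟪cre x F.ofLp S, G.ofLp S⟫ =
        if x ∈ S then (fun T => ⟪F.ofLp (T.erase x), G.ofLp T⟫) S else 0 := by
      intro S
      unfold cre
      split_ifs with h <;> simp
    rw [Finset.sum_congr rfl fun S _ => h1 S, Finset.sum_congr rfl fun S _ => h2 S]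
    exact sum_shift x (fun T => ⟪F.ofLp (T.erase x), G.ofLp T⟫)
  comm := by
    intro x y F
    ext S
    simp only [LinearMap.coe_mk, AddHom.coe_mk, ann]
    by_cases hxy : x = y
    · subst hxy
      rfl
    · by_cases hx : x ∈ S <;> by_cases hy : y ∈ S <;>
        simp [hx, hy, hxy, Ne.symm hxy, Finset.insert_comm]
  Rcomm := by
    intro x y hxy F
    ext S
    simp only [LinearMap.coe_mk, AddHom.coe_mk, ann, emp]
    by_cases hx : x ∈ S <;> by_cases hy : y ∈ S <;>
        simp [hx, hy, hxy]
  split := by
    intro x F
    simp only [PiLp.norm_sq_eq_of_L2, LinearMap.coe_mk, AddHom.coe_mk]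
    have h1 : ∀ S : Finset V, ‖ann x F.ofLp S‖ ^ 2 =
        if x ∈ S then 0 else (fun T => ‖F.ofLp T‖ ^ 2) (insert x S) := by
      intro S
      unfold ann
      split_ifs with h <;> simp
    have h2 : ∀ S : Finset V, ‖emp x F.ofLp S‖ ^ 2 =
        if x ∈ S then 0 else ‖F.ofLp S‖ ^ 2 := by
      intro S
      unfold emp
      split_ifs with h <;> simp
    rw [Finset.sum_congr rfl fun S _ => h1 S, Finset.sum_congr rfl fun S _ => h2 S,
      sum_shift x (fun T => ‖F.ofLp T‖ ^ 2), ← Finset.sum_add_distrib]
    refine Finset.sum_congr rfl fun S _ => ?_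
    split_ifs <;> simp
  Rproj := by
    intro x F G
    simp only [PiLp.inner_apply, LinearMap.coe_mk, AddHom.coe_mk]
    refine Finset.sum_congr rfl fun S _ => ?_
    simp only [ann, emp]
    split_ifs <;> simp
  anti := by
    intro x F
    ext S
    simp only [LinearMap.coe_mk, AddHom.coe_mk, ann, cre, PiLp.add_apply]
    by_cases hx : x ∈ S
    · simp [hx]
    · simp [hx]
  comm2 := by
    intro y z hyz F
    ext S
    simp only [LinearMap.coe_mk, AddHom.coe_mk, ann, cre]
    by_cases hy : y ∈ S <;> by_cases hz : z ∈ S
    · simp [hy, hz, hyz]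
    · simp [hy, hz]
    · have : (insert y S).erase z = insert y (S.erase z) :=
        Finset.erase_insert_of_ne hyz
      simp [hy, hz, this]
    · simp [hy, hz, Ne.symm hyz]

theorem hcb_a_apply (x : V) (F : Hil V E) : (hcb V E).a x F = WithLp.toLp 2 (ann x F.ofLp) := rfl

theorem norm_toLp_sq (f : Finset V → E) : ‖(WithLp.toLp 2 f : Hil V E)‖ ^ 2 = ∑ S, ‖f S‖ ^ 2 := by
  rw [PiLp.norm_sq_eq_of_L2]

theorem inner_toLp (f g : Finset V → E) :
    ⟪(WithLp.toLp 2 f : Hil V E), WithLp.toLp 2 g⟫ = ∑ S, ⟪f S, g S⟫ := by
  rw [PiLp.inner_apply]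

end Pool.Agent.Run7.h543.Star
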