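import Pool.Agent.Run7.h543.Star.Spec

/-!
# The normalised adjacency matrix of a regular graph
-/

set_option autoImplicit false
set_option linter.unusedSectionVars false

open scoped BigOperators RealInnerProductSpace

namespace Pool.Agent.Run7.h543.Star

variable {V : Type} [Fintype V] [DecidableEq V] (G : SimpleGraph V) [DecidableRel G.Adj]

/-- hopping matrix -/
noncomputable def hop (D : ℕ) : Matrix V V ℝ := fun x y => if G.Adj x y then 1 / (D : ℝ) else 0

variable {G} {D : ℕ}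

theorem hop_nonneg (x y : V) : 0 ≤ hop G D x y := by
  unfold hop
  split_ifs <;> positivity

theorem hop_symm (x y : V) : hop G D x y = hop G D y x := by
  unfold hop
  by_cases h : G.Adj x y
  · rw [if_pos h, if_pos h.symm]
  · rw [if_neg h, if_neg (fun h' => h h'.symm)]

theorem hop_diag (x : V) : hop G D x x = 0 := by
  unfold hop
  rw [if_neg (G.loopless.irrefl x)]

theorem sum_adj (hG : ∀ x, (Finset.univ.filter fun y => G.Adj x y).card = D) (x : V) :
    ∑ y, (if G.Adj x y then (1 : ℝ) else 0) = D := by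
  rw [← hG x, Finset.card_filter]
  push_cast
  rfl

theorem hop_row (hG : ∀ x, (Finset.univ.filter fun y => G.Adj x y).card = D) (hD : 0 < D) (x : V) :
    ∑ y, hop G D x y = 1 := by
  have hD' : (D : ℝ) ≠ 0 := by exact_mod_cast hD.ne'
  have h1 : ∀ y, hop G D x y = (if G.Adj x y then (1 : ℝ) else 0) * (1 / D) := by
    intro y
    unfold hop
    split_ifs <;> simp
  rw [Finset.sum_congr rfl fun y _ => h1 y, ← Finset.sum_mul, sum_adj hG]
  field_simp

theorem hop_sq_row (hG : ∀ x, (Finset.univ.filter fun y => G.Adj x y).card = D) (hD : 0 < D)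
    (x : V) : ∑ y, hop G D x y ^ 2 = 1 / D := by
  have hD' : (D : ℝ) ≠ 0 := by exact_mod_cast hD.ne'
  have h1 : ∀ y, hop G D x y ^ 2 = hop G D x y * (1 / D) := by
    intro y
    unfold hop
    split_ifs <;> ring
  rw [Finset.sum_congr rfl fun y _ => h1 y, ← Finset.sum_mul, hop_row hG hD, one_mul]

theorem mul_nonneg' (M N : Matrix V V ℝ) (hM : ∀ x y, 0 ≤ M x y) (hN : ∀ x y, 0 ≤ N x y)
    (x y : V) : 0 ≤ (M * N) x y := by
  rw [Matrix.mul_apply]
  exact Finset.sum_nonneg fun z _ => mul_nonneg (hM _ _) (hN _ _)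

theorem mul_row (M N : Matrix V V ℝ) (hM : ∀ x, ∑ y, M x y = 1) (hN : ∀ x, ∑ y, N x y = 1)
    (x : V) : ∑ y, (M * N) x y = 1 := by
  simp only [Matrix.mul_apply]
  rw [Finset.sum_comm]
  simp only [← Finset.mul_sum, hN, mul_one, hM]

theorem mul_symm' (M : Matrix V V ℝ) (hM : ∀ x y, M x y = M y x) (x y : V) :
    (M * M) x y = (M * M) y x := by
  rw [Matrix.mul_apply, Matrix.mul_apply]
  refine Finset.sum_congr rfl fun z _ => ?_
  rw [hM x z, hM z y]
  ring

theorem hop2_diag (hG : ∀ x, (Finset.univ.filter fun y => G.Adj x y).card = D) (hD : 0 < D)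
    (x : V) : (hop G D * hop G D) x x = 1 / D := by
  rw [Matrix.mul_apply, ← hop_sq_row hG hD x]
  refine Finset.sum_congr rfl fun z _ => ?_
  rw [hop_symm z x]
  ring

theorem hop2_offdiag {Γ : ℕ}
    (hΓ : ∀ x y, x ≠ y → (Finset.univ.filter fun z => G.Adj x z ∧ G.Adj y z).card ≤ Γ)
    (x y : V) (hxy : x ≠ y) : (hop G D * hop G D) x y ≤ Γ / D ^ 2 := by
  have h1 : (hop G D * hop G D) x y =
      ((Finset.univ.filter fun z => G.Adj x z ∧ G.Adj y z).card : ℝ) / D ^ 2 := by
    rw [Matrix.mul_apply, Finset.card_filter]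
    push_cast
    rw [Finset.sum_div]
    refine Finset.sum_congr rfl fun z _ => ?_
    unfold hop
    have e : G.Adj z y ↔ G.Adj y z := ⟨fun h => h.symm, fun h => h.symm⟩
    by_cases h1 : G.Adj x z <;> by_cases h2 : G.Adj y z
    · simp only [e, h1, h2, and_self, if_true]
      ring
    · simp only [e, h1, h2, and_false, if_false, if_true]
      ring
    · simp only [e, h1, h2, false_and, if_false, if_true]
      ring
    · simp only [e, h1, h2, false_and, if_false]
      ring
  rw [h1]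
  have h2 : ((Finset.univ.filter fun z => G.Adj x z ∧ G.Adj y z).card : ℝ) ≤ Γ := by
    exact_mod_cast hΓ x y hxy
  exact div_le_div_of_nonneg_right h2 (by positivity)

/-- the matrix `B² - 1 / D`, with zero diagonal -/
noncomputable def hop2' (G : SimpleGraph V) [DecidableRel G.Adj] (D : ℕ) : Matrix V V ℝ :=
  hop G D * hop G D - Matrix.diagonal fun _ => 1 / (D : ℝ)

theorem hop2'_diag (hG : ∀ x, (Finset.univ.filter fun y => G.Adj x y).card = D) (hD : 0 < D)
    (x : V) : hop2' G D x x = 0 := by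
  unfold hop2'
  rw [Matrix.sub_apply, hop2_diag hG hD, Matrix.diagonal_apply_eq, sub_self]

theorem hop2'_offdiag (x y : V) (hxy : x ≠ y) : hop2' G D x y = (hop G D * hop G D) x y := by
  unfold hop2'
  rw [Matrix.sub_apply, Matrix.diagonal_apply_ne _ hxy, sub_zero]

theorem hop2'_sq_row (hG : ∀ x, (Finset.univ.filter fun y => G.Adj x y).card = D) (hD : 0 < D)
    {Γ : ℕ} (hΓ : ∀ x y, x ≠ y → (Finset.univ.filter fun z => G.Adj x z ∧ G.Adj y z).card ≤ Γ)
    (x : V) : ∑ y, hop2' G D x y ^ 2 ≤ Γ / D ^ 2 := by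
  have hN := mul_nonneg' (hop G D) (hop G D) hop_nonneg hop_nonneg
  have h1 : ∀ y, hop2' G D x y ^ 2 ≤ (Γ / (D : ℝ) ^ 2) * (hop G D * hop G D) x y := by
    intro y
    by_cases hxy : x = y
    · subst hxy
      rw [hop2'_diag hG hD]
      have h2 := hN x x
      have h3 : (0 : ℝ) ≤ Γ / (D : ℝ) ^ 2 := by positivity
      rw [zero_pow two_ne_zero]
      exact mul_nonneg h3 h2
    · rw [hop2'_offdiag x y hxy, pow_two]
      exact mul_le_mul_of_nonneg_right (hop2_offdiag hΓ x y hxy) (hN x y)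
  refine (Finset.sum_le_sum fun y _ => h1 y).trans ?_
  rw [← Finset.mul_sum, mul_row _ _ (hop_row hG hD) (hop_row hG hD), mul_one]

theorem hop2_sq_row (hG : ∀ x, (Finset.univ.filter fun y => G.Adj x y).card = D) (hD : 0 < D)
    {Γ : ℕ} (hΓ : ∀ x y, x ≠ y → (Finset.univ.filter fun z => G.Adj x z ∧ G.Adj y z).card ≤ Γ)
    (x : V) : ∑ y, (hop G D * hop G D) x y ^ 2 ≤ (1 + Γ) / D ^ 2 := by
  have h1 : ∀ y, (hop G D * hop G D) x y ^ 2 = hop2' G D x y ^ 2 +
      (if x = y then 1 / (D : ℝ) ^ 2 else 0) := by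
    intro y
    by_cases hxy : x = y
    · subst hxy
      rw [hop2'_diag hG hD, hop2_diag hG hD, if_pos rfl]
      ring
    · rw [hop2'_offdiag x y hxy, if_neg hxy, add_zero]
  rw [Finset.sum_congr rfl fun y _ => h1 y, Finset.sum_add_distrib, Finset.sum_ite_eq,
    if_pos (Finset.mem_univ x)]
  have h2 := hop2'_sq_row hG hD hΓ x
  rw [add_div]
  linarith

theorem hop4_le (hG : ∀ x, (Finset.univ.filter fun y => G.Adj x y).card = D) (hD : 0 < D)
    {Γ : ℕ} (hΓ : ∀ x y, x ≠ y → (Finset.univ.filter fun z => G.Adj x z ∧ G.Adj y z).card ≤ Γ)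
    (x y : V) : ((hop G D * hop G D) * (hop G D * hop G D)) x y ≤ (1 + Γ) / D ^ 2 := by
  set M := hop G D * hop G D with hM
  have hs : ∀ x y, M x y = M y x := mul_symm' _ hop_symm
  rw [Matrix.mul_apply]
  have h1 : ∀ z, M x z * M z y ≤ (M x z ^ 2 + M y z ^ 2) / 2 := by
    intro z
    rw [hs z y]
    nlinarith [sq_nonneg (M x z - M y z)]
  refine (Finset.sum_le_sum fun z _ => h1 z).trans ?_
  rw [← Finset.sum_div, Finset.sum_add_distrib]
  have h2 := hop2_sq_row hG hD hΓ x
  have h3 := hop2_sq_row hG hD hΓ y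
  rw [← hM] at h2 h3
  linarith

theorem hop4_sq_row (hG : ∀ x, (Finset.univ.filter fun y => G.Adj x y).card = D) (hD : 0 < D)
    {Γ : ℕ} (hΓ : ∀ x y, x ≠ y → (Finset.univ.filter fun z => G.Adj x z ∧ G.Adj y z).card ≤ Γ)
    (x : V) : ∑ y, ((hop G D * hop G D) * (hop G D * hop G D)) x y ^ 2 ≤ (1 + Γ) / D ^ 2 := by
  have hN := mul_nonneg' (hop G D) (hop G D) hop_nonneg hop_nonneg
  have hN4 := mul_nonneg' _ _ hN hN
  have hR := mul_row _ _ (hop_row hG hD) (hop_row hG hD)
  have hR4 := mul_row _ _ hR hR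
  have h1 : ∀ y, ((hop G D * hop G D) * (hop G D * hop G D)) x y ^ 2 ≤
      ((1 + Γ) / (D : ℝ) ^ 2) * ((hop G D * hop G D) * (hop G D * hop G D)) x y := by
    intro y
    rw [pow_two]
    exact mul_le_mul_of_nonneg_right (hop4_le hG hD hΓ x y) (hN4 x y)
  refine (Finset.sum_le_sum fun y _ => h1 y).trans ?_
  rw [← Finset.mul_sum, hR4, mul_one]

/-- the eigenvalues of the hopping matrix -/
theorem eig_bounds (hG : ∀ x, (Finset.univ.filter fun y => G.Adj x y).card = D) (hD : 0 < D)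
    (u : V → ℝ) (l : ℝ) (hu : ∑ x, u x * u x = 1)
    (hl : ∀ x, ∑ y, hop G D x y * u y = l * u x) :
    -1 ≤ l ∧ l ≤ 1 ∧ D * (1 - l) = ∑ x, ∑ y, (if G.Adj x y then (u x - u y) ^ 2 / 2 else 0) := by
  have hD' : (D : ℝ) ≠ 0 := by exact_mod_cast hD.ne'
  have hD0 : (0 : ℝ) < D := by exact_mod_cast hD
  have e0 : ∑ x, ∑ y, (if G.Adj x y then (1 : ℝ) else 0) * (u x * u x) = D := by
    simp only [← Finset.sum_mul, sum_adj hG]
    rw [← Finset.mul_sum, hu, mul_one]
  have e1 : ∑ x, ∑ y, (if G.Adj x y then (1 : ℝ) else 0) * (u y * u y) = D := by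
    rw [Finset.sum_comm]
    rw [← e0]
    refine Finset.sum_congr rfl fun x _ => Finset.sum_congr rfl fun y _ => ?_
    by_cases h : G.Adj x y
    · rw [if_pos h, if_pos h.symm]
    · rw [if_neg h, if_neg (fun h' => h h'.symm)]
  have e2 : ∑ x, ∑ y, (if G.Adj x y then (1 : ℝ) else 0) * (u x * u y) = D * l := by
    have : ∀ x, ∑ y, (if G.Adj x y then (1 : ℝ) else 0) * (u x * u y) = D * (l * (u x * u x)) := by
      intro x
      have h1 := hl x
      have h2 : ∑ y, (if G.Adj x y then (1 : ℝ) else 0) * (u x * u y) =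
          D * u x * ∑ y, hop G D x y * u y := by
        rw [Finset.mul_sum]
        refine Finset.sum_congr rfl fun y _ => ?_
        unfold hop
        split_ifs
        · field_simp
        · ring
      rw [h2, h1]
      ring
    rw [Finset.sum_congr rfl fun x _ => this x, ← Finset.mul_sum, ← Finset.mul_sum, hu, mul_one]
  have s1 : ∑ x, ∑ y, (if G.Adj x y then (u x - u y) ^ 2 / 2 else 0) = D * (1 - l) := by
    have : ∀ x y, (if G.Adj x y then (u x - u y) ^ 2 / 2 else 0) =
        (1 / 2) * ((if G.Adj x y then (1 : ℝ) else 0) * (u x * u x)) +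
        (1 / 2) * ((if G.Adj x y then (1 : ℝ) else 0) * (u y * u y)) -
        (if G.Adj x y then (1 : ℝ) else 0) * (u x * u y) := by
      intro x y
      split_ifs <;> ring
    simp only [this, Finset.sum_sub_distrib, Finset.sum_add_distrib, ← Finset.mul_sum]
    rw [e0, e1, e2]
    ring
  have s2 : ∑ x, ∑ y, (if G.Adj x y then (u x + u y) ^ 2 / 2 else 0) = D * (1 + l) := by
    have : ∀ x y, (if G.Adj x y then (u x + u y) ^ 2 / 2 else 0) =
        (1 / 2) * ((if G.Adj x y then (1 : ℝ) else 0) * (u x * u x)) +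
        (1 / 2) * ((if G.Adj x y then (1 : ℝ) else 0) * (u y * u y)) +
        (if G.Adj x y then (1 : ℝ) else 0) * (u x * u y) := by
      intro x y
      split_ifs <;> ring
    simp only [this, Finset.sum_add_distrib, ← Finset.mul_sum]
    rw [e0, e1, e2]
    ring
  have n1 : 0 ≤ ∑ x, ∑ y, (if G.Adj x y then (u x - u y) ^ 2 / 2 else 0) := by
    refine Finset.sum_nonneg fun x _ => Finset.sum_nonneg fun y _ => ?_
    split_ifs <;> positivity
  have n2 : 0 ≤ ∑ x, ∑ y, (if G.Adj x y then (u x + u y) ^ 2 / 2 else 0) := by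
    refine Finset.sum_nonneg fun x _ => Finset.sum_nonneg fun y _ => ?_
    split_ifs <;> positivity
  rw [s1] at n1
  rw [s2] at n2
  refine ⟨?_, ?_, s1.symm⟩
  · have := nonneg_of_mul_nonneg_right n2 hD0
    linarith
  · have := nonneg_of_mul_nonneg_right n1 hD0
    linarith

end Pool.Agent.Run7.h543.Star
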