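import Pool.Agent.Run7.h543.Star.Alg
import Pool.Agent.Run7.h543.Star.Defs
import Pool.Agent.Run7.h543.Star.Graph
import Pool.Agent.Run7.h543.Star.Arith

/-!
# The condensate of a state with small energy
-/

set_option autoImplicit false
set_option linter.unusedSectionVars false

open scoped BigOperators RealInnerProductSpace

namespace Pool.Agent.Run7.h543.Star

variable {V : Type} [Fintype V] [DecidableEq V] {H : Type} [NormedAddCommGroup H]
  [InnerProductSpace ℝ H] (B : HCB V H)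

theorem star_rhs_nonneg (Ψ : H) (x : V) (g : V → ℝ) :
    0 ≤ ‖∑ y, g y • B.a y Ψ‖ ^ 2 +
        ∑ y, g y ^ 2 * (‖B.a x Ψ‖ ^ 2 - 2 * ‖B.a y (B.a x Ψ)‖ ^ 2) := by
  have haJ : B.a x (∑ y, g y • B.a y Ψ) = ∑ y, g y • B.a y (B.a x Ψ) := by
    rw [map_sum]
    refine Finset.sum_congr rfl fun y _ => ?_
    rw [map_smul, B.comm x y]
  have hJ := B.split x (∑ y, g y • B.a y Ψ)
  rw [haJ] at hJ
  have hK := B.create_norm g (B.a x Ψ)
  have h1 : 0 ≤ ‖B.R x (∑ y, g y • B.a y Ψ)‖ ^ 2 := sq_nonneg _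
  have h2 : 0 ≤ ‖∑ y, g y • B.c y (B.a x Ψ)‖ ^ 2 := sq_nonneg _
  rw [hJ]
  linarith

/-- the star inequality, summed over the sites -/
theorem star_sum (Ψ : H) (hΨ : ‖Ψ‖ = 1) (N : ℝ) (hN : ∑ x, ‖B.a x Ψ‖ ^ 2 = N)
    (M : Matrix V V ℝ) (hM : ∀ x, M x x = 0) :
    (∑ x, ⟪B.a x Ψ, act M (fun y => B.a y Ψ) x⟫) ^ 2 ≤
      (N * (1 - N / Fintype.card V)) * (∑ x, ‖act M (fun y => B.a y Ψ) x‖ ^ 2 +
        ∑ x, ∑ y, M x y ^ 2 * (‖B.a x Ψ‖ ^ 2 - 2 * ‖B.a y (B.a x Ψ)‖ ^ 2)) := by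
  rcases isEmpty_or_nonempty V with hV | hV
  · simp
  have hn : (0 : ℝ) < Fintype.card V := by exact_mod_cast Fintype.card_pos
  have hρ1 : ∀ x, ‖B.a x Ψ‖ ^ 2 ≤ 1 := by
    intro x
    have h1 := B.split x Ψ
    rw [hΨ] at h1
    have h2 : 0 ≤ ‖B.R x Ψ‖ ^ 2 := sq_nonneg _
    linarith
  have h1 : ∑ x, (‖B.a x Ψ‖ ^ 2 * (1 - ‖B.a x Ψ‖ ^ 2)) ≤ N * (1 - N / Fintype.card V) := by
    have h2 : (∑ x, ‖B.a x Ψ‖ ^ 2) ^ 2 ≤ Fintype.card V * ∑ x, (‖B.a x Ψ‖ ^ 2) ^ 2 := by
      have := sq_sum_le_card_mul_sum_sq (s := (Finset.univ : Finset V))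
        (f := fun x => ‖B.a x Ψ‖ ^ 2)
      simpa using this
    rw [hN] at h2
    have h3 : ∑ x, (‖B.a x Ψ‖ ^ 2 * (1 - ‖B.a x Ψ‖ ^ 2)) = N - ∑ x, (‖B.a x Ψ‖ ^ 2) ^ 2 := by
      rw [← hN, ← Finset.sum_sub_distrib]
      refine Finset.sum_congr rfl fun x _ => ?_
      ring
    have h4 : N ^ 2 / Fintype.card V ≤ ∑ x, (‖B.a x Ψ‖ ^ 2) ^ 2 := by
      rw [div_le_iff₀ hn]
      linarith
    rw [h3]
    have h5 : N * (1 - N / Fintype.card V) = N - N ^ 2 / Fintype.card V := by ring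
    rw [h5]
    linarith
  have h2 : ∀ x, 0 ≤ ‖act M (fun y => B.a y Ψ) x‖ ^ 2 +
        ∑ y, M x y ^ 2 * (‖B.a x Ψ‖ ^ 2 - 2 * ‖B.a y (B.a x Ψ)‖ ^ 2) :=
    fun x => star_rhs_nonneg B Ψ x (M x)
  have h3 := Finset.sum_sq_le_sum_mul_sum_of_sq_le_mul (Finset.univ : Finset V)
    (r := fun x => ⟪B.a x Ψ, act M (fun y => B.a y Ψ) x⟫)
    (f := fun x => ‖B.a x Ψ‖ ^ 2 * (1 - ‖B.a x Ψ‖ ^ 2))
    (g := fun x => ‖act M (fun y => B.a y Ψ) x‖ ^ 2 +
        ∑ y, M x y ^ 2 * (‖B.a x Ψ‖ ^ 2 - 2 * ‖B.a y (B.a x Ψ)‖ ^ 2))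
    (fun x _ => mul_nonneg (sq_nonneg _) (by have := hρ1 x; linarith))
    (fun x _ => h2 x) (fun x _ => B.star Ψ hΨ x (M x) (hM x))
  refine h3.trans ?_
  rw [Finset.sum_add_distrib]
  refine mul_le_mul_of_nonneg_right h1 ?_
  rw [← Finset.sum_add_distrib]
  exact Finset.sum_nonneg fun x _ => h2 x

/-- the normalised star inequality -/
theorem star_norm (Ψ : H) (hΨ : ‖Ψ‖ = 1) (N : ℝ) (hN0 : 0 < N) (hN : ∑ x, ‖B.a x Ψ‖ ^ 2 = N)
    (M : Matrix V V ℝ) (hM : ∀ x, M x x = 0) :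
    ((∑ x, ⟪B.a x Ψ, act M (fun y => B.a y Ψ) x⟫) / N) ^ 2 ≤
      (1 - N / Fintype.card V) * ((∑ x, ‖act M (fun y => B.a y Ψ) x‖ ^ 2) / N +
        (∑ x, ∑ y, M x y ^ 2 * (‖B.a x Ψ‖ ^ 2 - 2 * ‖B.a y (B.a x Ψ)‖ ^ 2)) / N) := by
  have h1 := star_sum B Ψ hΨ N hN M hM
  rw [div_pow, div_le_iff₀ (by positivity)]
  refine h1.trans (le_of_eq ?_)
  field_simp

theorem star_const (Ψ : H) (hΨ : ‖Ψ‖ = 1) (N : ℝ) (hN0 : 0 < N) (hN : ∑ x, ‖B.a x Ψ‖ ^ 2 = N)
    (hr : 0 ≤ 1 - N / Fintype.card V)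
    (M : Matrix V V ℝ) (hM : ∀ x, M x x = 0) (C : ℝ) (hC : ∀ x, ∑ y, M x y ^ 2 ≤ C) (Q : ℝ)
    (hQ : (∑ x, ‖act M (fun y => B.a y Ψ) x‖ ^ 2) / N ≤ Q) :
    ((∑ x, ⟪B.a x Ψ, act M (fun y => B.a y Ψ) x⟫) / N) ^ 2 ≤
      (1 - N / Fintype.card V) * (Q + C) := by
  refine (star_norm B Ψ hΨ N hN0 hN M hM).trans ?_
  refine mul_le_mul_of_nonneg_left ?_ hr
  refine add_le_add hQ ?_
  rw [div_le_iff₀ hN0]
  have h1 : ∀ x, ∑ y, M x y ^ 2 * (‖B.a x Ψ‖ ^ 2 - 2 * ‖B.a y (B.a x Ψ)‖ ^ 2) ≤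
      ‖B.a x Ψ‖ ^ 2 * C := by
    intro x
    calc ∑ y, M x y ^ 2 * (‖B.a x Ψ‖ ^ 2 - 2 * ‖B.a y (B.a x Ψ)‖ ^ 2) ≤
          ∑ y, M x y ^ 2 * ‖B.a x Ψ‖ ^ 2 := by
          refine Finset.sum_le_sum fun y _ => ?_
          refine mul_le_mul_of_nonneg_left ?_ (sq_nonneg _)
          have : 0 ≤ ‖B.a y (B.a x Ψ)‖ ^ 2 := sq_nonneg _
          linarith
      _ = ‖B.a x Ψ‖ ^ 2 * ∑ y, M x y ^ 2 := by rw [← Finset.sum_mul, mul_comm]
      _ ≤ _ := mul_le_mul_of_nonneg_left (hC x) (sq_nonneg _)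
  refine (Finset.sum_le_sum fun x _ => h1 x).trans ?_
  rw [← Finset.sum_mul, hN, mul_comm]

theorem sq_le_one_of (l : ℝ) (h1 : -1 ≤ l) (h2 : l ≤ 1) : l ^ 2 ≤ 1 := by nlinarith

theorem quarter (l : ℝ) : -(1 / 4) ≤ l ^ 1 + l ^ 2 := by nlinarith [sq_nonneg (l + 1 / 2)]

theorem poly_ineq (l b : ℝ) (hl1 : -1 ≤ l) (hlb : l ≤ b) (hb1 : b ≤ 1) (hb0 : 0 ≤ b) :
    (1 - b ^ 4) * (l ^ 4 - l ^ 2 + l ^ 3) ≤ l ^ 4 - l ^ 8 := by
  have hb4 : b ^ 4 ≤ 1 := pow_le_one₀ hb0 hb1
  rcases le_total 0 l with h | h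
  · have h1 : l ^ 4 ≤ b ^ 4 := pow_le_pow_left₀ h hlb 4
    have h2 : l ^ 4 - l ^ 8 = l ^ 4 * (1 - l ^ 4) := by ring
    have h3 : (1 - b ^ 4) * (l ^ 4 - l ^ 2 + l ^ 3) ≤ (1 - b ^ 4) * l ^ 4 := by
      refine mul_le_mul_of_nonneg_left ?_ (by linarith)
      have : l ^ 3 ≤ l ^ 2 := pow_le_pow_of_le_one h (hlb.trans hb1) (by norm_num)
      linarith
    have h4 : (1 - b ^ 4) * l ^ 4 ≤ l ^ 4 * (1 - l ^ 4) := by
      rw [mul_comm]
      refine mul_le_mul_of_nonneg_left (by linarith) (by positivity)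
    linarith
  · have hl2 : l ^ 2 ≤ 1 := by nlinarith
    have h1 : l ^ 4 - l ^ 2 + l ^ 3 ≤ 0 := by
      have e : l ^ 4 - l ^ 2 + l ^ 3 = l ^ 2 * (l ^ 2 - 1 + l) := by ring
      rw [e]
      exact mul_nonpos_of_nonneg_of_nonpos (sq_nonneg l) (by linarith)
    have h2 : (1 - b ^ 4) * (l ^ 4 - l ^ 2 + l ^ 3) ≤ 0 :=
      mul_nonpos_of_nonneg_of_nonpos (by linarith) h1
    have h3 : 0 ≤ l ^ 4 - l ^ 8 := by
      have e : l ^ 4 - l ^ 8 = l ^ 4 * (1 - l ^ 4) := by ring
      rw [e]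
      have : l ^ 4 ≤ 1 := by
        have : l ^ 4 = (l ^ 2) ^ 2 := by ring
        rw [this]
        exact pow_le_one₀ (sq_nonneg l) hl2
      exact mul_nonneg (by positivity) (by linarith)
    linarith

/-- the main inequality in the abstract setting -/
theorem core (G : SimpleGraph V) [DecidableRel G.Adj] (D Γ : ℕ) (hD : 0 < D)
    (hG : ∀ x, (Finset.univ.filter fun y => G.Adj x y).card = D)
    (hΓ : ∀ x y, x ≠ y → (Finset.univ.filter fun z => G.Adj x z ∧ G.Adj y z).card ≤ Γ)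
    (γ : ℝ) (hγ : 0 < γ) (hγD : γ ≤ D) (hgap : HasGap G γ)
    (Ψ : H) (hΨ : ‖Ψ‖ = 1) (N : ℝ) (hN0 : 0 < N) (hN : ∑ x, ‖B.a x Ψ‖ ^ 2 = N)
    (hNn : N ≤ Fintype.card V) (e : ℝ) (he : 0 ≤ e)
    (hE : (1 - N / Fintype.card V - e / D) * N ≤
      ∑ x, ⟪B.a x Ψ, act (hop G D) (fun y => B.a y Ψ) x⟫)
    (P1 σ2 : ℝ) (hP0 : 0 ≤ P1) (hσ : 0 ≤ σ2)
    (hP1 : ∑ x, ∑ y, hop G D x y * ‖B.a y (B.a x Ψ)‖ ^ 2 = N * P1)
    (hP : (P1 - N / Fintype.card V) ^ 2 ≤ σ2)
    (hU : (∑ x, ‖act (hop G D) (fun y => B.a y Ψ) x‖ ^ 2) / N + σ2 ≤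
      1 - N / Fintype.card V + 1 / D) :
    (1 - N / Fintype.card V) * (1 - 1 / (2 * γ)) - e / γ -
      26 * (1 + 1 / γ) * ((1 + e) / Real.sqrt D + (1 + Γ) / D) ≤
      ‖∑ x, B.a x Ψ‖ ^ 2 / (Fintype.card V * N) := by
  have hn : (0 : ℝ) < Fintype.card V := lt_of_lt_of_le hN0 hNn
  have hD0 : (0 : ℝ) < D := by exact_mod_cast hD
  set n : ℝ := (Fintype.card V : ℝ) with hndef
  set φ : V → H := fun y => B.a y Ψ with hφ
  set r : ℝ := 1 - N / n with hr
  have hr0 : 0 ≤ r := by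
    rw [hr, sub_nonneg, div_le_one hn]
    exact hNn
  set T : Matrix V V ℝ := hop G D with hT
  obtain ⟨u, lam, ho, hc, hl⟩ := exists_spectral T hop_symm
  set w : V → ℝ := fun i => ‖hat (u i) φ‖ ^ 2 / N with hw
  have hw0 : ∀ i, 0 ≤ w i := fun i => by rw [hw]; positivity
  -- hats
  have k1 : ∀ i, hat (u i) (act T φ) = lam i • hat (u i) φ :=
    fun i => hat_act T hop_symm (u i) (lam i) (hl i) φ
  have k2 : ∀ i, hat (u i) (act (T * T) φ) = lam i ^ 2 • hat (u i) φ := by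
    intro i
    rw [act_mul, hat_act T hop_symm (u i) (lam i) (hl i), k1, smul_smul, pow_two]
  have k4 : ∀ i, hat (u i) (act ((T * T) * (T * T)) φ) = lam i ^ 4 • hat (u i) φ := by
    intro i
    have h2 : ∀ ψ : V → H, hat (u i) (act (T * T) ψ) = lam i ^ 2 • hat (u i) ψ := by
      intro ψ
      rw [act_mul, hat_act T hop_symm (u i) (lam i) (hl i), hat_act T hop_symm (u i) (lam i) (hl i),
        smul_smul, pow_two]
    rw [act_mul, h2, h2, smul_smul]
    congr 1
    ring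
  have hatsub : ∀ (i : V) (f g : V → H), hat (u i) (fun x => f x - g x) =
      hat (u i) f - hat (u i) g := by
    intro i f g
    simp only [hat, smul_sub, Finset.sum_sub_distrib]
  have hatadd : ∀ (i : V) (f g : V → H), hat (u i) (fun x => f x + g x) =
      hat (u i) f + hat (u i) g := by
    intro i f g
    simp only [hat, smul_add, Finset.sum_add_distrib]
  have hatsmul : ∀ (i : V) (c : ℝ) (f : V → H), hat (u i) (fun x => c • f x) =
      c • hat (u i) f := by
    intro i c f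
    simp only [hat, Finset.smul_sum]
    refine Finset.sum_congr rfl fun x _ => ?_
    rw [smul_comm]
  -- moments
  have hinner : ∀ (f : V → H) (μ : V → ℝ), (∀ i, hat (u i) f = μ i • hat (u i) φ) →
      (∑ x, ⟪φ x, f x⟫) / N = ∑ i, w i * μ i := by
    intro f μ hf
    rw [parseval u hc, Finset.sum_div]
    refine Finset.sum_congr rfl fun i _ => ?_
    rw [hf i, real_inner_smul_right, real_inner_self_eq_norm_sq, hw]
    ring
  have hnorm : ∀ (f : V → H) (μ : V → ℝ), (∀ i, hat (u i) f = μ i • hat (u i) φ) →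
      (∑ x, ‖f x‖ ^ 2) / N = ∑ i, w i * μ i ^ 2 := by
    intro f μ hf
    have h1 : ∑ x, ‖f x‖ ^ 2 = ∑ x, ⟪f x, f x⟫ := by
      refine Finset.sum_congr rfl fun x _ => ?_
      rw [real_inner_self_eq_norm_sq]
    rw [h1, parseval u hc, Finset.sum_div]
    refine Finset.sum_congr rfl fun i _ => ?_
    rw [hf i, real_inner_smul_right, real_inner_smul_left, real_inner_self_eq_norm_sq, hw]
    ring
  have hw1 : ∑ i, w i = 1 := by
    have h1 := hnorm φ (fun _ => 1) (fun i => by rw [one_smul])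
    have h2 : (∑ x, ‖φ x‖ ^ 2) / N = 1 := by
      rw [hφ, hN, div_self hN0.ne']
    rw [h2] at h1
    rw [h1]
    refine Finset.sum_congr rfl fun i _ => ?_
    ring
  set m : ℕ → ℝ := fun k => ∑ i, w i * lam i ^ k with hm
  have hlb : ∀ i, -1 ≤ lam i ∧ lam i ≤ 1 ∧ D * (1 - lam i) =
      ∑ x, ∑ y, (if G.Adj x y then (u i x - u i y) ^ 2 / 2 else 0) := by
    intro i
    refine eig_bounds hG hD (u i) (lam i) ?_ (hl i)
    have := ho i i
    rw [if_pos rfl] at this
    exact this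
  -- S1
  have S1 : m 1 ^ 2 ≤ r * (m 2 + 1 / D * (1 - 2 * P1)) := by
    have h1 := star_norm B Ψ hΨ N hN0 hN T hop_diag
    have h2 : (∑ x, ⟪B.a x Ψ, act T (fun y => B.a y Ψ) x⟫) / N = m 1 := by
      have := hinner (act T φ) lam k1
      rw [hφ] at this
      rw [this, hm]
      simp
    have h3 : (∑ x, ‖act T (fun y => B.a y Ψ) x‖ ^ 2) / N = m 2 := by
      have := hnorm (act T φ) lam k1
      rw [hφ] at this
      rw [this, hm]
    have h4 : (∑ x, ∑ y, T x y ^ 2 * (‖B.a x Ψ‖ ^ 2 - 2 * ‖B.a y (B.a x Ψ)‖ ^ 2)) / N =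
        1 / D * (1 - 2 * P1) := by
      have e1 : ∀ x y, T x y ^ 2 * (‖B.a x Ψ‖ ^ 2 - 2 * ‖B.a y (B.a x Ψ)‖ ^ 2) =
          1 / D * (T x y * ‖B.a x Ψ‖ ^ 2) - 2 / D * (T x y * ‖B.a y (B.a x Ψ)‖ ^ 2) := by
        intro x y
        have : T x y ^ 2 = 1 / D * T x y := by
          rw [hT]
          unfold hop
          split_ifs <;> ring
        rw [this]
        ring
      simp only [e1, Finset.sum_sub_distrib, ← Finset.mul_sum]
      rw [hP1]
      have e2 : ∑ x, ∑ y, T x y * ‖B.a x Ψ‖ ^ 2 = N := by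
        simp only [← Finset.sum_mul]
        rw [hT]
        simp only [hop_row hG hD, one_mul]
        exact hN
      rw [e2]
      field_simp
    rw [h2, h3, h4] at h1
    exact h1
  -- S2
  have hat2' : ∀ i, hat (u i) (act (hop2' G D) φ) = (lam i ^ 2 - 1 / D) • hat (u i) φ := by
    intro i
    have h1 : act (hop2' G D) φ = fun x => act (T * T) φ x - (1 / (D : ℝ)) • φ x := by
      funext x
      unfold hop2'
      rw [act_sub, act_diagonal]
    rw [h1, hatsub, hatsmul, k2, sub_smul]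
  have S2 : (m 2 - 1 / D) ^ 2 ≤ r * (m 4 - 2 * m 2 * (1 / D) + (1 / D) ^ 2 + Γ / (D : ℝ) ^ 2) := by
    have h1 := star_const B Ψ hΨ N hN0 hN hr0 (hop2' G D) (hop2'_diag hG hD) (Γ / (D : ℝ) ^ 2)
      (hop2'_sq_row hG hD hΓ) (m 4 - 2 * m 2 * (1 / D) + (1 / D) ^ 2) (le_of_eq ?_)
    · have h2 : (∑ x, ⟪B.a x Ψ, act (hop2' G D) (fun y => B.a y Ψ) x⟫) / N = m 2 - 1 / D := by
        have := hinner (act (hop2' G D) φ) _ hat2'
        rw [hφ] at this
        rw [this, hm]
        simp only [mul_sub, Finset.sum_sub_distrib, ← Finset.sum_mul, hw1, one_mul]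
      rw [h2] at h1
      exact h1
    · have := hnorm (act (hop2' G D) φ) _ hat2'
      rw [hφ] at this
      rw [this, hm]
      have e1 : ∀ i, w i * (lam i ^ 2 - 1 / D) ^ 2 = w i * lam i ^ 4 -
          (w i * lam i ^ 2) * (2 * (1 / D)) + w i * (1 / D) ^ 2 := by
        intro i
        ring
      simp only [e1, Finset.sum_sub_distrib, Finset.sum_add_distrib, ← Finset.sum_mul, hw1]
      ring
  -- S3
  have hat3 : ∀ i, hat (u i) (act (T + hop2' G D) φ) =
      (lam i + (lam i ^ 2 - 1 / D)) • hat (u i) φ := by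
    intro i
    have h1 : act (T + hop2' G D) φ = fun x => act T φ x + act (hop2' G D) φ x := by
      funext x
      rw [act_add]
    rw [h1, hatadd, hat2', k1, add_smul]
  have S3 : (m 1 + m 2 - 1 / D) ^ 2 ≤ r * ((m 2 + 2 * m 3 + m 4 - 2 * (1 / D) * (m 1 + m 2) +
      (1 / D) ^ 2) + (2 * (1 / D) + 2 * (Γ / (D : ℝ) ^ 2))) := by
    have h1 := star_const B Ψ hΨ N hN0 hN hr0 (T + hop2' G D) (fun x => by
      rw [Matrix.add_apply, hop2'_diag hG hD, hT, hop_diag, add_zero])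
      (2 * (1 / D) + 2 * (Γ / (D : ℝ) ^ 2)) (fun x => ?_)
      (m 2 + 2 * m 3 + m 4 - 2 * (1 / D) * (m 1 + m 2) + (1 / D) ^ 2) (le_of_eq ?_)
    · have h2 : (∑ x, ⟪B.a x Ψ, act (T + hop2' G D) (fun y => B.a y Ψ) x⟫) / N =
          m 1 + m 2 - 1 / D := by
        have := hinner (act (T + hop2' G D) φ) _ hat3
        rw [hφ] at this
        rw [this, hm]
        simp only [mul_sub, mul_add, Finset.sum_sub_distrib, Finset.sum_add_distrib,
          ← Finset.sum_mul, hw1, one_mul, pow_one]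
        ring
      rw [h2] at h1
      exact h1
    · have e1 : ∀ y, (T + hop2' G D) x y ^ 2 ≤ 2 * T x y ^ 2 + 2 * hop2' G D x y ^ 2 := by
        intro y
        rw [Matrix.add_apply]
        have h0 := sq_nonneg (T x y - hop2' G D x y)
        have h00 : (T x y + hop2' G D x y) ^ 2 =
            2 * T x y ^ 2 + 2 * hop2' G D x y ^ 2 - (T x y - hop2' G D x y) ^ 2 := by ring
        rw [h00]
        linarith
      refine (Finset.sum_le_sum fun y _ => e1 y).trans ?_
      rw [Finset.sum_add_distrib, ← Finset.mul_sum, ← Finset.mul_sum, hT, hop_sq_row hG hD]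
      have := hop2'_sq_row hG hD hΓ x
      linarith
    · have := hnorm (act (T + hop2' G D) φ) _ hat3
      rw [hφ] at this
      rw [this, hm]
      have e1 : ∀ i, w i * (lam i + (lam i ^ 2 - 1 / D)) ^ 2 = w i * lam i ^ 2 +
          (w i * lam i ^ 3) * 2 + w i * lam i ^ 4 - (w i * lam i ^ 1) * (2 * (1 / D)) -
          (w i * lam i ^ 2) * (2 * (1 / D)) + w i * (1 / D) ^ 2 := by
        intro i
        ring
      simp only [e1, Finset.sum_sub_distrib, Finset.sum_add_distrib, ← Finset.sum_mul, hw1]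
      ring
  -- S4
  set θ : ℝ := (1 + Γ) / (D : ℝ) ^ 2 with hθ
  have hθ0 : 0 ≤ θ := by positivity
  set F : Matrix V V ℝ := (T * T) * (T * T) with hF
  have hF0 : ∀ x y, 0 ≤ F x y := by
    have hN2 := mul_nonneg' T T hop_nonneg hop_nonneg
    exact mul_nonneg' _ _ hN2 hN2
  have hFθ : ∀ x y, F x y ≤ θ := fun x y => hop4_le hG hD hΓ x y
  have hm8 : (∑ x, ‖act F φ x‖ ^ 2) / N = m 8 := by
    rw [hnorm (act F φ) (fun i => lam i ^ 4) k4, hm]
    refine Finset.sum_congr rfl fun i _ => ?_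
    ring
  have hm8' : m 8 ≤ 1 := by
    rw [← hw1, hm]
    refine Finset.sum_le_sum fun i _ => ?_
    have h1 := (hlb i).1
    have h2 := (hlb i).2.1
    have h3 : lam i ^ 8 ≤ 1 := by
      have : lam i ^ 2 ≤ 1 := sq_le_one_of _ h1 h2
      have e : lam i ^ 8 = (lam i ^ 2) ^ 4 := by ring
      rw [e]
      exact pow_le_one₀ (sq_nonneg _) this
    calc w i * lam i ^ 8 ≤ w i * 1 := mul_le_mul_of_nonneg_left h3 (hw0 i)
      _ = w i := mul_one _
  have hact4 : ∀ x, act (F - Matrix.diagonal fun x => F x x) φ x = act F φ x - F x x • φ x := by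
    intro x
    rw [act_sub, act_diagonal]
  obtain ⟨z, hz, S4⟩ : ∃ z : ℝ, m 4 - θ ≤ z ∧ z ^ 2 ≤ r * (m 8 + 3 * θ + θ ^ 2) := by
    have h1 := star_const B Ψ hΨ N hN0 hN hr0 (F - Matrix.diagonal fun x => F x x) (fun x => by
      rw [Matrix.sub_apply, Matrix.diagonal_apply_eq, sub_self]) θ (fun x => ?_)
      (m 8 + 2 * θ + θ ^ 2) ?_
    · refine ⟨_, ?_, h1.trans (le_of_eq (by ring))⟩
      have h2 : (∑ x, ⟪φ x, act (F - Matrix.diagonal fun x => F x x) φ x⟫) / N =
          m 4 - (∑ x, F x x * ‖φ x‖ ^ 2) / N := by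
        have h3 := hinner (act F φ) _ k4
        rw [hm]
        simp only
        rw [← h3, ← sub_div, ← Finset.sum_sub_distrib]
        congr 1
        refine Finset.sum_congr rfl fun x _ => ?_
        rw [hact4, inner_sub_right, real_inner_smul_right, real_inner_self_eq_norm_sq]
      rw [hφ] at h2
      rw [h2]
      have h4 : (∑ x, F x x * ‖B.a x Ψ‖ ^ 2) / N ≤ θ := by
        rw [div_le_iff₀ hN0, ← hN, Finset.mul_sum]
        refine Finset.sum_le_sum fun x _ => ?_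
        exact mul_le_mul_of_nonneg_right (hFθ x x) (sq_nonneg _)
      linarith
    · have h2 : ∀ y, (F - Matrix.diagonal fun x => F x x) x y ^ 2 ≤ F x y ^ 2 := by
        intro y
        rw [Matrix.sub_apply]
        by_cases hxy : x = y
        · subst hxy
          rw [Matrix.diagonal_apply_eq, sub_self, zero_pow two_ne_zero]
          exact sq_nonneg _
        · rw [Matrix.diagonal_apply_ne _ hxy, sub_zero]
      exact (Finset.sum_le_sum fun y _ => h2 y).trans (hop4_sq_row hG hD hΓ x)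
    · have h2 : ∀ x, ‖act (F - Matrix.diagonal fun x => F x x) φ x‖ ^ 2 ≤
          ‖act F φ x‖ ^ 2 + θ * ‖act F φ x‖ ^ 2 + (θ + θ ^ 2) * ‖φ x‖ ^ 2 := by
        intro x
        rw [hact4]
        have h3 : ‖act F φ x - F x x • φ x‖ ≤ ‖act F φ x‖ + θ * ‖φ x‖ := by
          refine (norm_sub_le _ _).trans ?_
          rw [norm_smul, Real.norm_eq_abs, abs_of_nonneg (hF0 x x)]
          have := mul_le_mul_of_nonneg_right (hFθ x x) (norm_nonneg (φ x))
          linarith
        have h4 : ‖act F φ x - F x x • φ x‖ ^ 2 ≤ (‖act F φ x‖ + θ * ‖φ x‖) ^ 2 :=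
          pow_le_pow_left₀ (norm_nonneg _) h3 2
        have h5 : (‖act F φ x‖ + θ * ‖φ x‖) ^ 2 ≤
            ‖act F φ x‖ ^ 2 + θ * ‖act F φ x‖ ^ 2 + (θ + θ ^ 2) * ‖φ x‖ ^ 2 := by
          have h6 : 0 ≤ θ * (‖act F φ x‖ - ‖φ x‖) ^ 2 := mul_nonneg hθ0 (sq_nonneg _)
          have h7 : ‖act F φ x‖ ^ 2 + θ * ‖act F φ x‖ ^ 2 + (θ + θ ^ 2) * ‖φ x‖ ^ 2 -
              (‖act F φ x‖ + θ * ‖φ x‖) ^ 2 = θ * (‖act F φ x‖ - ‖φ x‖) ^ 2 := by ring
          linarith
        exact h4.trans h5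
      have h3 := Finset.sum_le_sum fun x (_ : x ∈ (Finset.univ : Finset V)) => h2 x
      rw [Finset.sum_add_distrib, Finset.sum_add_distrib, ← Finset.mul_sum, ← Finset.mul_sum] at h3
      have h4 : ∑ x, ‖φ x‖ ^ 2 = N := hN
      rw [h4] at h3
      have h5 : ∑ x, ‖act F φ x‖ ^ 2 = m 8 * N := by
        rw [← hm8]
        field_simp
      rw [h5] at h3
      rw [div_le_iff₀ hN0]
      refine h3.trans ?_
      have h6 : θ * (m 8 * N) ≤ θ * N := by
        refine mul_le_mul_of_nonneg_left ?_ hθ0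
        calc m 8 * N ≤ 1 * N := mul_le_mul_of_nonneg_right hm8' hN0.le
          _ = N := one_mul N
      linarith
  -- monotonicity of the moments
  have h42 : m 4 ≤ m 2 := by
    rw [hm]
    refine Finset.sum_le_sum fun i _ => mul_le_mul_of_nonneg_left ?_ (hw0 i)
    have h1 := (hlb i).1
    have h2 := (hlb i).2.1
    have h3 : lam i ^ 2 ≤ 1 := sq_le_one_of _ h1 h2
    have e : lam i ^ 4 = lam i ^ 2 * lam i ^ 2 := by ring
    rw [e]
    exact mul_le_of_le_one_left (sq_nonneg _) h3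
  have h12 : -(1 / 4) ≤ m 1 + m 2 := by
    rw [hm]
    simp only
    rw [← Finset.sum_add_distrib]
    have h1 : ∀ i, w i * (-(1 / 4)) ≤ w i * lam i ^ 1 + w i * lam i ^ 2 := by
      intro i
      rw [← mul_add]
      exact mul_le_mul_of_nonneg_left (quarter (lam i)) (hw0 i)
    have h2 := Finset.sum_le_sum fun i (_ : i ∈ (Finset.univ : Finset V)) => h1 i
    rw [← Finset.sum_mul, hw1, one_mul] at h2
    exact h2
  -- gap
  set f0 : ℝ := ‖∑ x, B.a x Ψ‖ ^ 2 / (n * N) with hf0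
  have hf00 : 0 ≤ f0 := by positivity
  set g : ℝ := γ * (1 / D) with hg
  have hg0 : 0 < g := by positivity
  have hg1 : g ≤ 1 := by
    rw [hg, mul_one_div, div_le_one hD0]
    exact hγD
  have dich : ∀ i, lam i ≤ 1 - g ∨ ((∀ x y, u i x = u i y) ∧ lam i = 1) := by
    intro i
    by_cases h1 : lam i = 1
    · right
      refine ⟨?_, h1⟩
      have h2 := (hlb i).2.2
      rw [h1, sub_self, mul_zero] at h2
      set c : ℝ := (∑ x, u i x) / n with hcdef
      have h3 := hgap (fun x => u i x - c) (by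
        rw [Finset.sum_sub_distrib, Finset.sum_const, Finset.card_univ, nsmul_eq_mul, ← hndef,
          hcdef]
        field_simp
        ring)
      have h4 : ∑ x, ∑ y, (if G.Adj x y then ((u i x - c) - (u i y - c)) ^ 2 / 2 else 0) = 0 := by
        refine Eq.trans ?_ h2.symm
        refine Finset.sum_congr rfl fun x _ => Finset.sum_congr rfl fun y _ => ?_
        rw [sub_sub_sub_cancel_right]
      rw [h4] at h3
      have h5 : ∑ x, (u i x - c) ^ 2 ≤ 0 := by
        by_contra hcon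
        push Not at hcon
        have := mul_pos hγ hcon
        linarith
      have h6 : ∀ x, u i x = c := by
        intro x
        have h7 := (Finset.sum_eq_zero_iff_of_nonneg (fun x _ => sq_nonneg (u i x - c))).1
          (le_antisymm h5 (Finset.sum_nonneg fun x _ => sq_nonneg _)) x (Finset.mem_univ x)
        have h8 := pow_eq_zero_iff (two_ne_zero) |>.1 h7
        linarith
      intro x y
      rw [h6 x, h6 y]
    · left
      have h2 : ∑ x, u i x = 0 := by
        have h3 : ∑ x, ∑ y, T x y * u i y = lam i * ∑ x, u i x := by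
          rw [Finset.mul_sum]
          exact Finset.sum_congr rfl fun x _ => hl i x
        rw [Finset.sum_comm] at h3
        have h4 : ∀ y, ∑ x, T x y * u i y = u i y := by
          intro y
          rw [← Finset.sum_mul]
          have : ∑ x, T x y = 1 := by
            rw [← hop_row hG hD y]
            exact Finset.sum_congr rfl fun x _ => hop_symm x y
          rw [this, one_mul]
        rw [Finset.sum_congr rfl fun y _ => h4 y] at h3
        have h5 : (1 - lam i) * ∑ x, u i x = 0 := by linarith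
        rcases mul_eq_zero.1 h5 with h6 | h6
        · exact absurd (by linarith) h1
        · exact h6
      have h3 := hgap (u i) h2
      rw [← (hlb i).2.2] at h3
      have h4 : ∑ x, u i x ^ 2 = 1 := by
        have := ho i i
        rw [if_pos rfl] at this
        rw [← this]
        refine Finset.sum_congr rfl fun x _ => ?_
        ring
      rw [h4, mul_one] at h3
      have h5 : g ≤ 1 - lam i := by
        rw [hg, mul_one_div, div_le_iff₀ hD0]
        linarith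
      linarith
  have hconst : ∀ i, (∀ x y, u i x = u i y) → w i = f0 := by
    intro i hi
    have hVne : Nonempty V := ⟨i⟩
    obtain ⟨x0⟩ := hVne
    have h1 : hat (u i) φ = u i x0 • ∑ x, B.a x Ψ := by
      rw [hat, Finset.smul_sum]
      refine Finset.sum_congr rfl fun x _ => ?_
      rw [hi x x0]
    have h2 : n * u i x0 ^ 2 = 1 := by
      have := ho i i
      rw [if_pos rfl] at this
      rw [← this]
      have h3 : ∀ x, u i x * u i x = u i x0 ^ 2 := by
        intro x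
        rw [hi x x0]
        ring
      rw [Finset.sum_congr rfl fun x _ => h3 x, Finset.sum_const, Finset.card_univ, nsmul_eq_mul]
    rw [hw, hf0]
    simp only
    rw [h1, norm_smul, mul_pow, Real.norm_eq_abs, sq_abs]
    have h3 : u i x0 ^ 2 = 1 / n := by
      field_simp
      linarith
    rw [h3]
    field_simp
  have hgapm : m 8 ≤ m 4 - (1 - (1 - g) ^ 4) * (m 4 - f0 - (m 2 - m 3)) := by
    have hβ0 : 0 ≤ 1 - (1 - g) ^ 4 := by
      have : (1 - g) ^ 4 ≤ 1 := pow_le_one₀ (by linarith) (by linarith)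
      linarith
    set β : ℝ := 1 - (1 - g) ^ 4 with hβ
    have h1 : m 4 - m 8 - β * (m 4 - (m 2 - m 3)) =
        ∑ i, w i * (lam i ^ 4 - lam i ^ 8 - β * (lam i ^ 4 - lam i ^ 2 + lam i ^ 3)) := by
      have e1 : ∀ i, w i * (lam i ^ 4 - lam i ^ 8 - β * (lam i ^ 4 - lam i ^ 2 + lam i ^ 3)) =
          w i * lam i ^ 4 - w i * lam i ^ 8 - β * (w i * lam i ^ 4) + β * (w i * lam i ^ 2) -
            β * (w i * lam i ^ 3) := by
        intro i
        ring
      simp only [e1, Finset.sum_sub_distrib, Finset.sum_add_distrib, ← Finset.mul_sum]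
      rw [hm]
      ring
    have h2 : -(β * f0) ≤
        ∑ i, w i * (lam i ^ 4 - lam i ^ 8 - β * (lam i ^ 4 - lam i ^ 2 + lam i ^ 3)) := by
      have hgood : ∀ i, lam i ≤ 1 - g →
          0 ≤ w i * (lam i ^ 4 - lam i ^ 8 - β * (lam i ^ 4 - lam i ^ 2 + lam i ^ 3)) := by
        intro i hi
        refine mul_nonneg (hw0 i) ?_
        have := poly_ineq (lam i) (1 - g) (hlb i).1 hi (by linarith) (by linarith)
        linarith
      by_cases hex : ∃ i0, ¬ lam i0 ≤ 1 - g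
      · obtain ⟨i0, hi0⟩ := hex
        have hi0' := (dich i0).resolve_left hi0
        rw [← Finset.add_sum_erase _ _ (Finset.mem_univ i0)]
        have h3 : w i0 * (lam i0 ^ 4 - lam i0 ^ 8 - β * (lam i0 ^ 4 - lam i0 ^ 2 + lam i0 ^ 3)) =
            -(β * f0) := by
          rw [hi0'.2, hconst i0 hi0'.1]
          ring
        rw [h3]
        have h4 : 0 ≤ ∑ i ∈ Finset.univ.erase i0,
            w i * (lam i ^ 4 - lam i ^ 8 - β * (lam i ^ 4 - lam i ^ 2 + lam i ^ 3)) := by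
          refine Finset.sum_nonneg fun i hi => hgood i ?_
          rcases dich i with h5 | h5
          · exact h5
          · exfalso
            have hne := (Finset.mem_erase.1 hi).1
            have h6 := ho i i0
            rw [if_neg hne] at h6
            have h7 : ∑ x, u i x * u i0 x = n * (u i i * u i0 i) := by
              have : ∀ x, u i x * u i0 x = u i i * u i0 i := by
                intro x
                rw [h5.1 x i, hi0'.1 x i]
              rw [Finset.sum_congr rfl fun x _ => this x, Finset.sum_const, Finset.card_univ,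
                nsmul_eq_mul]
            rw [h7] at h6
            have h8 : u i i ≠ 0 := by
              intro h0
              have h9 := ho i i
              rw [if_pos rfl] at h9
              have : ∀ x, u i x * u i x = 0 := by
                intro x
                rw [h5.1 x i, h0, mul_zero]
              rw [Finset.sum_congr rfl fun x _ => this x] at h9
              simp at h9
            have h8' : u i0 i ≠ 0 := by
              intro h0
              have h9 := ho i0 i0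
              rw [if_pos rfl] at h9
              have : ∀ x, u i0 x * u i0 x = 0 := by
                intro x
                rw [hi0'.1 x i, h0, mul_zero]
              rw [Finset.sum_congr rfl fun x _ => this x] at h9
              simp at h9
            rcases mul_eq_zero.1 h6 with h9 | h9
            · exact hn.ne' h9
            · rcases mul_eq_zero.1 h9 with h10 | h10
              · exact h8 h10
              · exact h8' h10
        linarith
      · push Not at hex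
        have h4 : 0 ≤ ∑ i, w i * (lam i ^ 4 - lam i ^ 8 -
            β * (lam i ^ 4 - lam i ^ 2 + lam i ^ 3)) :=
          Finset.sum_nonneg fun i _ => hgood i (hex i)
        have : 0 ≤ β * f0 := mul_nonneg hβ0 hf00
        linarith
    rw [← h1] at h2
    have h3 : β * (m 4 - f0 - (m 2 - m 3)) = β * (m 4 - (m 2 - m 3)) - β * f0 := by ring
    rw [h3]
    linarith
  -- conclusion
  set s : ℝ := 1 / Real.sqrt D with hs
  have hsq : 0 < Real.sqrt D := Real.sqrt_pos.2 hD0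
  have hs0 : 0 < s := by positivity
  have hs2 : s ^ 2 = 1 / D := by
    rw [hs, div_pow, Real.sq_sqrt hD0.le, one_pow]
  have hs4 : s ^ 4 = (1 / (D : ℝ)) ^ 2 := by
    rw [← hs2]
    ring
  have hs1 : s ≤ 1 := by
    rw [hs, div_le_one hsq]
    have h1 : (1 : ℝ) ≤ D := by exact_mod_cast hD
    rw [show (1 : ℝ) = Real.sqrt 1 by simp]
    exact Real.sqrt_le_sqrt h1
  have hm1 : (∑ x, ⟪B.a x Ψ, act T (fun y => B.a y Ψ) x⟫) / N = m 1 := by
    have := hinner (act T φ) lam k1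
    rw [hφ] at this
    rw [this, hm]
    simp
  have hm2 : (∑ x, ‖act T (fun y => B.a y Ψ) x‖ ^ 2) / N = m 2 := by
    have := hnorm (act T φ) lam k1
    rw [hφ] at this
    rw [this, hm]
  have key := arith s Γ γ (N / n) r e (m 1) (m 2) (m 3) (m 4) (m 8) f0 P1 σ2 z hs0 hs1
    (Nat.cast_nonneg Γ) hγ (by rw [hs2]; exact hg1) (by positivity) hr0 (by rw [hr]; ring) he hf00
    hP0 hσ
    (by
      rw [← hm1, hs2, le_div_iff₀ hN0]
      refine le_trans (le_of_eq ?_) hE
      rw [hr]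
      ring)
    (by rw [hs2]; exact S1) hP
    (by rw [hs2, ← hm2, hr]; exact hU)
    (by
      rw [hs2, hs4]
      refine S2.trans (le_of_eq ?_)
      ring)
    (by
      rw [hs2, hs4]
      refine S3.trans (le_of_eq ?_)
      ring)
    (by
      rw [hs4]
      refine le_trans (le_of_eq ?_) hz
      rw [hθ]
      ring)
    (by
      rw [hs4]
      refine S4.trans (le_of_eq ?_)
      rw [hθ]
      ring)
    h42 h12
    (by rw [hs2]; exact hgapm)
  have e1 : (1 + e) / Real.sqrt D + (1 + Γ) / D = (1 + e) * s + (1 + Γ) * s ^ 2 := by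
    rw [hs2, hs]
    ring
  rw [e1]
  exact key

end Pool.Agent.Run7.h543.Star
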