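import Pool.Agent.Run7.h543.Star.Pow

/-!
# Powers of a fixed graph, in the limit of high dimension
-/

set_option autoImplicit false
set_option linter.unusedSectionVars false

open scoped BigOperators

namespace Pool.Agent.Run7.h543.Star

theorem pow_limit (W : Type) [Fintype W] [DecidableEq W] (H : SimpleGraph W) [DecidableRel H.Adj]
    (D₀ : ℕ) (hD₀ : 0 < D₀) (hH : ∀ x, (Finset.univ.filter fun y => H.Adj x y).card = D₀)
    (γ : ℝ) (hγ : 0 < γ) (hgap : HasGap H γ) (η : ℝ) (hη : 0 < η) :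
    ∃ d₀ : ℕ, ∀ d, d₀ ≤ d → ∀ N : ℕ, 0 < N → N ≤ Fintype.card W ^ d →
      ∀ Ψ : Finset (Fin d → W) → ℂ, IsState N Ψ →
        (∀ Φ : Finset (Fin d → W) → ℂ, IsState N Φ →
          kin (powGraph H d) Ψ ≤ kin (powGraph H d) Φ) →
        ((1 - (N : ℝ) / Fintype.card W ^ d) * (1 - 1 / (2 * γ)) - η) * N ≤ cond Ψ := by
  have hK : 0 < 104 * (1 + 1 / γ) / η := by positivity
  set K : ℝ := 104 * (1 + 1 / γ) / η with hKdef
  obtain ⟨d₁, hd₁⟩ := exists_nat_ge (K ^ 2)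
  obtain ⟨d₂, hd₂⟩ := exists_nat_ge γ
  refine ⟨max (max d₁ d₂) 1, ?_⟩
  intro d hd N hN0 hNn Ψ hΨ hmin
  have hd1 : d₁ ≤ d := le_trans (le_trans (le_max_left _ _) (le_max_left _ _)) hd
  have hd2 : d₂ ≤ d := le_trans (le_trans (le_max_right _ _) (le_max_left _ _)) hd
  have hd3 : 1 ≤ d := le_trans (le_max_right _ _) hd
  have hdr : (1 : ℝ) ≤ d := by exact_mod_cast hd3
  have hd0 : (0 : ℝ) < d := by linarith
  have hD0r : (1 : ℝ) ≤ D₀ := by exact_mod_cast hD₀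
  have hD : 0 < d * D₀ := Nat.mul_pos hd3 hD₀
  have hcard : Fintype.card (Fin d → W) = Fintype.card W ^ d := by
    rw [Fintype.card_fun, Fintype.card_fin]
  have hDr : ((d * D₀ : ℕ) : ℝ) = d * D₀ := by push_cast; rfl
  have hdD : (d : ℝ) ≤ ((d * D₀ : ℕ) : ℝ) := by
    rw [hDr]
    nlinarith
  have hγD : γ ≤ ((d * D₀ : ℕ) : ℝ) := by
    have h1 : (d₂ : ℝ) ≤ d := by exact_mod_cast hd2
    linarith
  have h1 := ground_bound (powGraph H d) (d * D₀) (D₀ + 1) hD (pow_regular H d D₀ hH)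
    (pow_codeg H d D₀ hH) γ hγ hγD (pow_gap H d γ hγ hgap) N hN0 (by rw [hcard]; exact hNn)
    (fun _ => 0) (fun _ => le_rfl) 0 (by simp) Ψ hΨ 0 le_rfl (by
      intro Φ hΦ
      have := hmin Φ hΦ
      unfold energy
      simpa using this)
  have hN0' : (0 : ℝ) < N := by exact_mod_cast hN0
  refine le_trans (mul_le_mul_of_nonneg_right ?_ hN0'.le) h1
  have hcard' : ((Fintype.card (Fin d → W) : ℕ) : ℝ) = (Fintype.card W : ℝ) ^ d := by
    rw [hcard]
    push_cast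
    rfl
  rw [hcard']
  simp only [add_zero, zero_div, sub_zero]
  -- the error
  have hsq : 0 < Real.sqrt d := Real.sqrt_pos.2 hd0
  have hsq1 : 1 ≤ Real.sqrt d := by
    rw [show (1 : ℝ) = Real.sqrt 1 by simp]
    exact Real.sqrt_le_sqrt hdr
  have e1 : 1 / Real.sqrt ((d * D₀ : ℕ) : ℝ) ≤ 1 / Real.sqrt d := by
    refine one_div_le_one_div_of_le hsq (Real.sqrt_le_sqrt hdD)
  have e2 : (1 + ((D₀ + 1 : ℕ) : ℝ)) / ((d * D₀ : ℕ) : ℝ) ≤ 3 / Real.sqrt d := by
    rw [hDr]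
    push_cast
    have h2 : (1 + ((D₀ : ℝ) + 1)) / (d * D₀) ≤ 3 / d := by
      rw [div_le_div_iff₀ (by positivity) hd0]
      nlinarith
    have h3 : 3 / (d : ℝ) ≤ 3 / Real.sqrt d := by
      refine div_le_div_of_nonneg_left (by norm_num) hsq ?_
      calc Real.sqrt d ≤ Real.sqrt d * Real.sqrt d := by nlinarith
        _ = d := Real.mul_self_sqrt hd0.le
    exact h2.trans h3
  have hKd : K ≤ Real.sqrt d := by
    have h2 : (d₁ : ℝ) ≤ d := by exact_mod_cast hd1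
    refine Real.le_sqrt_of_sq_le ?_
    linarith
  have e3 : 104 * (1 + 1 / γ) / Real.sqrt d ≤ η := by
    rw [div_le_iff₀ hsq]
    rw [hKdef, div_le_iff₀ hη] at hKd
    linarith
  have e4 : 26 * (1 + 1 / γ) * (1 / Real.sqrt ((d * D₀ : ℕ) : ℝ) +
      (1 + ((D₀ + 1 : ℕ) : ℝ)) / ((d * D₀ : ℕ) : ℝ)) ≤ η := by
    have h2 : 1 / Real.sqrt ((d * D₀ : ℕ) : ℝ) +
      (1 + ((D₀ + 1 : ℕ) : ℝ)) / ((d * D₀ : ℕ) : ℝ) ≤ 4 / Real.sqrt d := by
      have : 4 / Real.sqrt d = 1 / Real.sqrt d + 3 / Real.sqrt d := by ring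
      rw [this]
      exact add_le_add e1 e2
    have h3 : 0 ≤ 26 * (1 + 1 / γ) := by positivity
    refine (mul_le_mul_of_nonneg_left h2 h3).trans ?_
    have h4 : 26 * (1 + 1 / γ) * (4 / Real.sqrt d) = 104 * (1 + 1 / γ) / Real.sqrt d := by ring
    rw [h4]
    exact e3
  linarith

theorem complete_regular (q : ℕ) (x : Fin q) :
    (Finset.univ.filter fun y => (⊤ : SimpleGraph (Fin q)).Adj x y).card = q - 1 := by
  have h1 : (Finset.univ.filter fun y => (⊤ : SimpleGraph (Fin q)).Adj x y) =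
      Finset.univ.erase x := by
    ext y
    simp [eq_comm]
  rw [h1, Finset.card_erase_of_mem (Finset.mem_univ x), Finset.card_univ, Fintype.card_fin]

theorem complete_gap (q : ℕ) : HasGap (⊤ : SimpleGraph (Fin q)) q := by
  intro f hf
  have h1 : ∀ x y, (if (⊤ : SimpleGraph (Fin q)).Adj x y then (f x - f y) ^ 2 / 2 else 0) =
      1 / 2 * f x ^ 2 + 1 / 2 * f y ^ 2 - f x * f y := by
    intro x y
    by_cases h : x = y
    · subst h
      simp
      ring
    · rw [if_pos (by simpa using h)]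
      ring
  simp only [h1, Finset.sum_add_distrib, Finset.sum_sub_distrib, ← Finset.mul_sum, hf, mul_zero,
    Finset.sum_const_zero, sub_zero, Finset.sum_const, Finset.card_univ, Fintype.card_fin,
    nsmul_eq_mul]
  refine le_of_eq ?_
  ring

end Pool.Agent.Run7.h543.Star
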