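import Pool.Agent.Run7.h543.Star.Trial
import Pool.Agent.Run7.h543.Bose.Dim

/-!
# Ground states and Gibbs states
-/

set_option autoImplicit false
set_option linter.unusedSectionVars false

open scoped BigOperators RealInnerProductSpace

namespace Pool.Agent.Run7.h543.Star

variable {V : Type} [Fintype V] [DecidableEq V]

theorem orth_card (N : ℕ) {m : ℕ} (b : Fin m → Finset V → ℂ)
    (hs : ∀ i S, S.card ≠ N → b i S = 0)
    (ho : ∀ i j, ∑ S, (starRingEnd ℂ) (b i S) * b j S = if i = j then 1 else 0) :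
    m ≤ (Fintype.card V).choose N := by
  classical
  have hli : LinearIndependent ℂ (fun i => fun S : {S : Finset V // S.card = N} => b i S.1) := by
    rw [Fintype.linearIndependent_iff]
    intro z hz c
    have h0 : ∀ S : Finset V, ∑ i, z i * b i S = 0 := by
      intro S
      by_cases h : S.card = N
      · have := congrFun hz ⟨S, h⟩
        simpa using this
      · exact Finset.sum_eq_zero fun i _ => by rw [hs i S h, mul_zero]
    have h1 : ∑ S, (starRingEnd ℂ) (b c S) * (∑ i, z i * b i S) = 0 := by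
      refine Finset.sum_eq_zero fun S _ => ?_
      rw [h0 S, mul_zero]
    have h2 : ∑ S, (starRingEnd ℂ) (b c S) * (∑ i, z i * b i S) =
        ∑ i, z i * ∑ S, (starRingEnd ℂ) (b c S) * b i S := by
      simp only [Finset.mul_sum]
      rw [Finset.sum_comm]
      refine Finset.sum_congr rfl fun a _ => Finset.sum_congr rfl fun X _ => ?_
      ring
    rw [h2] at h1
    simp only [ho] at h1
    simpa using h1
  have h1 := hli.fintype_card_le_finrank
  rw [Module.finrank_fintype_fun_eq_card, Fintype.card_fin, Fintype.card_finset_len] at h1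
  exact h1

theorem log_choose (n N m : ℕ) (hN0 : 0 < N) (hNn : N ≤ n) (hm : m ≤ n.choose N) (hm0 : 0 < m) :
    Real.log m ≤ N * (1 + Real.log (n / N)) := by
  have hNr : (0 : ℝ) < N := by exact_mod_cast hN0
  have hnr : (0 : ℝ) < n := lt_of_lt_of_le hNr (by exact_mod_cast hNn)
  have h1 : (m : ℝ) ≤ (n.choose N : ℝ) := by exact_mod_cast hm
  have h2 : (n.choose N : ℝ) ≤ (n : ℝ) ^ N / (N.factorial : ℝ) := Nat.choose_le_pow_div N _
  have h4 : (N : ℝ) ^ N / (N.factorial : ℝ) ≤ Real.exp N := by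
    have h5 := Real.sum_le_exp_of_nonneg hNr.le (N + 1)
    refine le_trans ?_ h5
    exact Finset.single_le_sum (f := fun i => (N : ℝ) ^ i / (i.factorial : ℝ))
      (fun i _ => by positivity) (Finset.mem_range.2 (Nat.lt_succ_self N))
  have h5 : (m : ℝ) ≤ (n / N) ^ N * Real.exp N := by
    calc (m : ℝ) ≤ (n : ℝ) ^ N / (N.factorial : ℝ) := h1.trans h2
      _ = (n / N) ^ N * ((N : ℝ) ^ N / (N.factorial : ℝ)) := by
          rw [div_pow]
          field_simp
      _ ≤ (n / N) ^ N * Real.exp N := by gcongr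
  have hm0' : (0 : ℝ) < m := by exact_mod_cast hm0
  have h6 := Real.log_le_log hm0' h5
  rw [Real.log_mul (by positivity) (Real.exp_ne_zero _), Real.log_exp, Real.log_pow] at h6
  linarith

theorem normSq_expand {m : ℕ} (b : Fin m → Finset V → ℂ)
    (ho : ∀ i j, ∑ S, (starRingEnd ℂ) (b i S) * b j S = if i = j then 1 else 0) (z : Fin m → ℂ) :
    ∑ S, ‖∑ i, z i * b i S‖ ^ 2 = ∑ i, ‖z i‖ ^ 2 := by
  have h1 : ((∑ S, ‖∑ i, z i * b i S‖ ^ 2 : ℝ) : ℂ) = ((∑ i, ‖z i‖ ^ 2 : ℝ) : ℂ) := by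
    push_cast
    have e1 : ∀ X, ((‖∑ a, z a * b a X‖ : ℝ) : ℂ) ^ 2 =
        ∑ a, ∑ c, (starRingEnd ℂ) (z a) * z c * ((starRingEnd ℂ) (b a X) * b c X) := by
      intro X
      rw [← Complex.conj_mul', map_sum, Finset.sum_mul_sum]
      refine Finset.sum_congr rfl fun a _ => Finset.sum_congr rfl fun c _ => ?_
      rw [map_mul]
      ring
    simp only [e1]
    rw [Finset.sum_comm]
    refine Finset.sum_congr rfl fun a _ => ?_
    rw [Finset.sum_comm]
    simp only [← Finset.mul_sum, ho]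
    simp only [mul_ite, mul_one, mul_zero, Finset.sum_ite_eq, Finset.mem_univ, if_true]
    rw [Complex.conj_mul']
  exact_mod_cast h1

theorem sum_swap {m : ℕ} (p : Fin m → ℝ) (f : Fin m → V → V → ℝ) :
    ∑ a, p a * ∑ x, ∑ y, f a x y = ∑ x, ∑ y, ∑ a, p a * f a x y := by
  simp only [Finset.mul_sum]
  rw [Finset.sum_comm]
  refine Finset.sum_congr rfl fun x _ => ?_
  rw [Finset.sum_comm]

theorem kin_nonneg {E : Type} [NormedAddCommGroup E] (G : SimpleGraph V) [DecidableRel G.Adj]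
    (Ψ : Finset V → E) : 0 ≤ kin G Ψ := by
  unfold kin
  refine Finset.sum_nonneg fun x _ => Finset.sum_nonneg fun y _ => ?_
  split_ifs
  · exact div_nonneg (Finset.sum_nonneg fun S _ => sq_nonneg _) (by norm_num)
  · exact le_rfl

theorem kin_le_energy {E : Type} [NormedAddCommGroup E] (G : SimpleGraph V) [DecidableRel G.Adj]
    (U : Finset V → ℝ) (hU0 : ∀ S, 0 ≤ U S) (Ψ : Finset V → E) : kin G Ψ ≤ energy G U Ψ := by
  unfold energy
  have : 0 ≤ ∑ S : Finset V, U S * ‖Ψ S‖ ^ 2 :=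
    Finset.sum_nonneg fun S _ => mul_nonneg (hU0 S) (sq_nonneg _)
  linarith

theorem ground_bound (G : SimpleGraph V) [DecidableRel G.Adj] (D Γ : ℕ) (hD : 0 < D)
    (hG : ∀ x, (Finset.univ.filter fun y => G.Adj x y).card = D)
    (hΓ : ∀ x y, x ≠ y → (Finset.univ.filter fun z => G.Adj x z ∧ G.Adj y z).card ≤ Γ)
    (γ : ℝ) (hγ : 0 < γ) (hγD : γ ≤ D) (hgap : HasGap G γ)
    (N : ℕ) (hN0 : 0 < N) (hNn : N ≤ Fintype.card V)
    (U : Finset V → ℝ) (hU0 : ∀ S, 0 ≤ U S) (w : ℝ)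
    (hU : ∑ S ∈ Finset.powersetCard N Finset.univ, U S ≤ w * N * (Fintype.card V).choose N)
    (Ψ : Finset V → ℂ) (hΨ : IsState N Ψ) (δ : ℝ) (hδ : 0 ≤ δ)
    (hmin : ∀ Φ : Finset V → ℂ, IsState N Φ → energy G U Ψ ≤ energy G U Φ + δ * N) :
    ((1 - (N : ℝ) / Fintype.card V) * (1 - 1 / (2 * γ)) - (w + δ) / γ -
      26 * (1 + 1 / γ) * ((1 + (w + δ)) / Real.sqrt D + (1 + Γ) / D)) * N ≤ cond Ψ := by
  have hN0' : (0 : ℝ) < N := by exact_mod_cast hN0
  have hw : 0 ≤ w := by
    have h1 : 0 ≤ ∑ S ∈ Finset.powersetCard N (Finset.univ : Finset V), U S :=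
      Finset.sum_nonneg fun S _ => hU0 S
    have h2 : (0 : ℝ) < (Fintype.card V).choose N := by exact_mod_cast Nat.choose_pos hNn
    by_contra hcon
    push Not at hcon
    have h3 : w * N * (Fintype.card V).choose N < 0 := by
      refine mul_neg_of_neg_of_pos (mul_neg_of_neg_of_pos hcon hN0') h2
    linarith
  obtain ⟨Φ, hΦ, hΦE⟩ := exists_trial G D hD hG N hN0 hNn U w hU
  refine state_bound G D Γ hD hG hΓ γ hγ hγD hgap N hN0 hNn Ψ hΨ (w + δ) (by positivity) ?_
  have h1 := kin_le_energy G U hU0 Ψ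
  have h2 := hmin Φ hΦ
  have h3 : (D * ((N : ℝ) / Fintype.card V) + (w + δ)) * N =
      (D * ((N : ℝ) / Fintype.card V) + w) * N + δ * N := by ring
  rw [h3]
  linarith

theorem gibbs_bound (G : SimpleGraph V) [DecidableRel G.Adj] (D Γ : ℕ) (hD : 0 < D)
    (hG : ∀ x, (Finset.univ.filter fun y => G.Adj x y).card = D)
    (hΓ : ∀ x y, x ≠ y → (Finset.univ.filter fun z => G.Adj x z ∧ G.Adj y z).card ≤ Γ)
    (γ : ℝ) (hγ : 0 < γ) (hγD : γ ≤ D) (hgap : HasGap G γ)
    (N : ℕ) (hN0 : 0 < N) (hNn : N ≤ Fintype.card V)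
    (U : Finset V → ℝ) (hU0 : ∀ S, 0 ≤ U S) (w : ℝ)
    (hU : ∑ S ∈ Finset.powersetCard N Finset.univ, U S ≤ w * N * (Fintype.card V).choose N)
    (T : ℝ) (hT : 0 < T) (m : ℕ) (b : Fin m → Finset V → ℂ) (ε : Fin m → ℝ)
    (hb : IsSpectral G U N b ε) (e : ℝ)
    (he : e = w + T * (1 + Real.log ((Fintype.card V : ℝ) / N))) :
    ((1 - (N : ℝ) / Fintype.card V) * (1 - 1 / (2 * γ)) - e / γ -
      26 * (1 + 1 / γ) * ((1 + e) / Real.sqrt D + (1 + Γ) / D)) * N ≤ gibbsCond b ε T := by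
  have hN0' : (0 : ℝ) < N := by exact_mod_cast hN0
  have hNn' : (N : ℝ) ≤ Fintype.card V := by exact_mod_cast hNn
  have hw : 0 ≤ w := by
    have h1 : 0 ≤ ∑ S ∈ Finset.powersetCard N (Finset.univ : Finset V), U S :=
      Finset.sum_nonneg fun S _ => hU0 S
    have h2 : (0 : ℝ) < (Fintype.card V).choose N := by exact_mod_cast Nat.choose_pos hNn
    by_contra hcon
    push Not at hcon
    have h3 : w * N * (Fintype.card V).choose N < 0 := by
      refine mul_neg_of_neg_of_pos (mul_neg_of_neg_of_pos hcon hN0') h2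
    linarith
  have hlog0 : 0 ≤ Real.log ((Fintype.card V : ℝ) / N) := by
    refine Real.log_nonneg ?_
    rw [le_div_iff₀ hN0']
    linarith
  have he0 : 0 ≤ e := by
    rw [he]
    positivity
  obtain ⟨Φ, hΦ, hΦE⟩ := exists_trial G D hD hG N hN0 hNn U w hU
  obtain ⟨z, hz⟩ := hb.complete Φ hΦ.2
  have hzn : ∑ i, ‖z i‖ ^ 2 = 1 := by
    rw [← normSq_expand b hb.orth z, ← hΦ.1, hz]
  have hm0 : 0 < m := by
    rcases Nat.eq_zero_or_pos m with h | h
    · subst h
      simp at hzn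
    · exact h
  set E0 : ℝ := (D * ((N : ℝ) / Fintype.card V) + w) * N with hE0
  have hEΦ : ∑ i, ‖z i‖ ^ 2 * ε i ≤ E0 := by
    rw [← hb.energy_eq z, ← hz]
    exact hΦE
  obtain ⟨a₀, _, ha₀⟩ := Finset.exists_min_image (Finset.univ : Finset (Fin m)) ε
    ⟨⟨0, hm0⟩, Finset.mem_univ _⟩
  have hEa : ε a₀ ≤ E0 := by
    refine le_trans ?_ hEΦ
    calc ε a₀ = ∑ a, ‖z a‖ ^ 2 * ε a₀ := by rw [← Finset.sum_mul, hzn, one_mul]
      _ ≤ ∑ a, ‖z a‖ ^ 2 * ε a := by
        refine Finset.sum_le_sum fun a _ => ?_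
        exact mul_le_mul_of_nonneg_left (ha₀ a (Finset.mem_univ a)) (by positivity)
  have hlog : Real.log m ≤ N * (1 + Real.log ((Fintype.card V : ℝ) / N)) :=
    log_choose _ N m hN0 hNn (orth_card N b hb.sector hb.orth) hm0
  -- the weights
  set Z : ℝ := ∑ a, Real.exp (-(ε a / T)) with hZ
  have hZ0 : 0 < Z := Finset.sum_pos (fun a _ => Real.exp_pos _) ⟨a₀, Finset.mem_univ _⟩
  set p : Fin m → ℝ := fun a => Real.exp (-(ε a / T)) / Z with hp
  have hp0 : ∀ a, 0 ≤ p a := fun a => div_nonneg (Real.exp_pos _).le hZ0.le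
  have hp1 : ∑ a, p a = 1 := by
    rw [hp, ← Finset.sum_div, ← hZ, div_self hZ0.ne']
  have henergy : ∀ a, energy G U (b a) = ε a := by
    intro a
    have h2 := hb.energy_eq (Pi.single a 1)
    have e1 : (fun X => ∑ c, (Pi.single a (1 : ℂ) : Fin m → ℂ) c * b c X) = b a := by
      funext X
      rw [Finset.sum_eq_single a]
      · simp
      · intro c _ hc
        simp [hc]
      · intro h
        exact absurd (Finset.mem_univ _) h
    have e2 : ∑ c, ‖(Pi.single a (1 : ℂ) : Fin m → ℂ) c‖ ^ 2 * ε c = ε a := by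
      rw [Finset.sum_eq_single a]
      · simp
      · intro c _ hc
        simp [hc]
      · intro h
        exact absurd (Finset.mem_univ _) h
    rw [e1, e2] at h2
    exact h2
  have hbn : ∀ a, ∑ S, ‖b a S‖ ^ 2 = 1 := by
    intro a
    have h4 := hb.orth a a
    rw [if_pos rfl] at h4
    have h5 : ((∑ S, ‖b a S‖ ^ 2 : ℝ) : ℂ) = 1 := by
      rw [← h4]
      push_cast
      refine Finset.sum_congr rfl fun X _ => ?_
      rw [Complex.conj_mul']
    exact_mod_cast h5
  -- purification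
  set Ψ : Finset V → PiLp 2 (fun _ : Fin m => ℂ) := fun S =>
    WithLp.toLp 2 (fun a => ((Real.sqrt (p a) : ℝ) : ℂ) * b a S) with hΨ
  have hmix : ∀ f : Fin m → ℂ, ‖(WithLp.toLp 2 (fun a => ((Real.sqrt (p a) : ℝ) : ℂ) * f a) :
      PiLp 2 (fun _ : Fin m => ℂ))‖ ^ 2 = ∑ a, p a * ‖f a‖ ^ 2 := by
    intro f
    rw [PiLp.norm_sq_eq_of_L2]
    refine Finset.sum_congr rfl fun a _ => ?_
    simp only
    rw [norm_mul, mul_pow, Complex.norm_real, Real.norm_eq_abs, sq_abs, Real.sq_sqrt (hp0 a)]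
  have hann : ∀ x S, ann x Ψ S =
      WithLp.toLp 2 (fun a => ((Real.sqrt (p a) : ℝ) : ℂ) * ann x (b a) S) := by
    intro x S
    ext a
    unfold ann
    split_ifs
    · simp
    · rfl
  have hΨs : IsState N Ψ := by
    refine ⟨?_, ?_⟩
    · have h1 : ∀ S, ‖Ψ S‖ ^ 2 = ∑ a, p a * ‖b a S‖ ^ 2 := fun S => hmix (fun a => b a S)
      rw [Finset.sum_congr rfl fun S _ => h1 S, Finset.sum_comm]
      simp only [← Finset.mul_sum, hbn, mul_one]
      exact hp1
    · intro S hS
      rw [hΨ]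
      ext a
      simp [hb.sector a S hS]
  have hkin : kin G Ψ = ∑ a, p a * kin G (b a) := by
    unfold kin
    rw [sum_swap]
    refine Finset.sum_congr rfl fun x _ => Finset.sum_congr rfl fun y _ => ?_
    by_cases h : G.Adj x y
    · simp only [if_pos h]
      have h1 : ∀ S, ‖ann x Ψ S - ann y Ψ S‖ ^ 2 =
          ∑ a, p a * ‖ann x (b a) S - ann y (b a) S‖ ^ 2 := by
        intro S
        rw [hann, hann, ← WithLp.toLp_sub, ← hmix]
        congr 3
        funext a
        simp only [Pi.sub_apply]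
        ring
      rw [Finset.sum_congr rfl fun S _ => h1 S, Finset.sum_comm, Finset.sum_div]
      refine Finset.sum_congr rfl fun a _ => ?_
      rw [← Finset.mul_sum]
      ring
    · simp only [if_neg h]
      simp
  have hcond : cond Ψ = gibbsCond b ε T := by
    unfold gibbsCond
    have h1 : cond Ψ = ∑ a, p a * cond (b a) := by
      unfold cond
      have h2 : ∀ S : Finset V, ‖∑ x : V, ann x Ψ S‖ ^ 2 =
          ∑ a, p a * ‖∑ x : V, ann x (b a) S‖ ^ 2 := by
        intro S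
        rw [← hmix]
        congr 2
        simp only [hann]
        ext a
        rw [WithLp.ofLp_sum, Finset.sum_apply]
        simp only
        rw [Finset.mul_sum]
      rw [Finset.sum_congr rfl fun S _ => h2 S, Finset.sum_comm, Finset.sum_div]
      refine Finset.sum_congr rfl fun a _ => ?_
      rw [← Finset.mul_sum, mul_div_assoc]
    rw [h1, hp, ← hZ, Finset.sum_div]
    refine Finset.sum_congr rfl fun a _ => ?_
    ring
  rw [← hcond]
  refine state_bound G D Γ hD hG hΓ γ hγ hγD hgap N hN0 hNn Ψ hΨs e he0 ?_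
  rw [hkin]
  have h1 : ∑ a, p a * kin G (b a) ≤ ∑ a, p a * ε a := by
    refine Finset.sum_le_sum fun a _ => mul_le_mul_of_nonneg_left ?_ (hp0 a)
    rw [← henergy a]
    exact kin_le_energy G U hU0 (b a)
  refine h1.trans ?_
  have h2 := Bose.gibbs_energy ε T hT a₀
  rw [← hZ] at h2
  have h3 : ∑ a, p a * ε a = (∑ a, Real.exp (-(ε a / T)) * ε a) / Z := by
    rw [hp, Finset.sum_div]
    refine Finset.sum_congr rfl fun a _ => ?_
    ring
  rw [h3, div_le_iff₀ hZ0]
  refine h2.trans (mul_le_mul_of_nonneg_right ?_ hZ0.le)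
  have h4 : (D * ((N : ℝ) / Fintype.card V) + e) * N =
      E0 + T * (N * (1 + Real.log ((Fintype.card V : ℝ) / N))) := by
    rw [hE0, he]
    ring
  rw [h4]
  exact add_le_add hEa (mul_le_mul_of_nonneg_left hlog hT.le)

end Pool.Agent.Run7.h543.Star
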