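import Pool.Agent.Run7.h543.Star.Gibbs

/-!
# Cartesian powers of a graph
-/

set_option autoImplicit false
set_option linter.unusedSectionVars false

open scoped BigOperators

namespace Pool.Agent.Run7.h543.Star

variable {W : Type} [Fintype W] [DecidableEq W]

/-- the Cartesian power `H □ ⋯ □ H` (`d` factors): two points are adjacent if they differ in exactly
one coordinate, and there they are adjacent in `H` -/
def powGraph (H : SimpleGraph W) (d : ℕ) : SimpleGraph (Fin d → W) where
  Adj X Y := ∃ i, H.Adj (X i) (Y i) ∧ ∀ j, j ≠ i → X j = Y j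
  symm := ⟨by
    rintro X Y ⟨i, h1, h2⟩
    exact ⟨i, h1.symm, fun j hj => (h2 j hj).symm⟩⟩
  loopless := ⟨by
    rintro X ⟨i, h1, -⟩
    exact H.loopless.irrefl _ h1⟩

variable (H : SimpleGraph W) [DecidableRel H.Adj] (d : ℕ)

noncomputable instance : DecidableRel (powGraph H d).Adj := fun _ _ => Classical.propDecidable _

theorem adj_update (X : Fin d → W) (i : Fin d) (b : W) (h : H.Adj (X i) b) :
    (powGraph H d).Adj X (Function.update X i b) := by
  refine ⟨i, ?_, ?_⟩
  · rw [Function.update_self]
    exact h
  · intro j hj
    rw [Function.update_of_ne hj]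

theorem nbr_sum (X : Fin d → W) (h : (Fin d → W) → ℝ) :
    ∑ Y, (if (powGraph H d).Adj X Y then h Y else 0) =
      ∑ i, ∑ b, (if H.Adj (X i) b then h (Function.update X i b) else 0) := by
  classical
  rw [← Finset.sum_filter, ← Fintype.sum_prod_type'
    (f := fun i b => if H.Adj (X i) b then h (Function.update X i b) else 0), ← Finset.sum_filter]
  symm
  refine Finset.sum_bij (fun q _ => Function.update X q.1 q.2) ?_ ?_ ?_ ?_
  · intro q hq
    simp only [Finset.mem_filter, Finset.mem_univ, true_and] at hq ⊢
    exact adj_update H d X q.1 q.2 hq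
  · rintro ⟨i, b⟩ hq ⟨j, c⟩ hq' heq
    simp only [Finset.mem_filter, Finset.mem_univ, true_and] at hq hq'
    simp only at heq
    have hij : i = j := by
      by_contra hne
      have h1 := congrFun heq i
      rw [Function.update_self, Function.update_of_ne hne] at h1
      rw [h1] at hq
      exact H.loopless.irrefl _ hq
    subst hij
    have h1 := congrFun heq i
    rw [Function.update_self, Function.update_self] at h1
    rw [h1]
  · intro Y hY
    simp only [Finset.mem_filter, Finset.mem_univ, true_and] at hY
    obtain ⟨i, h1, h2⟩ := hY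
    refine ⟨(i, Y i), ?_, ?_⟩
    · simp only [Finset.mem_filter, Finset.mem_univ, true_and]
      exact h1
    · simp only
      funext j
      by_cases hj : j = i
      · subst hj
        rw [Function.update_self]
      · rw [Function.update_of_ne hj, h2 j hj]
  · intro q _
    rfl

theorem pow_regular (D : ℕ) (hH : ∀ x, (Finset.univ.filter fun y => H.Adj x y).card = D)
    (X : Fin d → W) :
    (Finset.univ.filter fun Y => (powGraph H d).Adj X Y).card = d * D := by
  have h1 := nbr_sum H d X (fun _ => 1)
  have h2 : ∀ i, ∑ b, (if H.Adj (X i) b then (1 : ℝ) else 0) = D := fun i => sum_adj hH (X i)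
  simp only [h2] at h1
  rw [Finset.sum_const, Finset.card_univ, Fintype.card_fin, nsmul_eq_mul] at h1
  have h3 : ((Finset.univ.filter fun Y => (powGraph H d).Adj X Y).card : ℝ) = d * D := by
    rw [← h1, Finset.card_filter]
    push_cast
    rfl
  exact_mod_cast h3

theorem pow_codeg (D : ℕ) (hH : ∀ x, (Finset.univ.filter fun y => H.Adj x y).card = D)
    (X Y : Fin d → W) (hXY : X ≠ Y) :
    (Finset.univ.filter fun Z => (powGraph H d).Adj X Z ∧ (powGraph H d).Adj Y Z).card ≤ D + 1 := by
  classical
  obtain ⟨p, hp⟩ : ∃ p, X p ≠ Y p := by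
    by_contra hcon
    push Not at hcon
    exact hXY (funext hcon)
  have hsub : (Finset.univ.filter fun Z => (powGraph H d).Adj X Z ∧ (powGraph H d).Adj Y Z) ⊆
      insert (Function.update Y p (X p))
        ((Finset.univ.filter fun a => H.Adj (X p) a).image fun a => Function.update X p a) := by
    intro Z hZ
    simp only [Finset.mem_filter, Finset.mem_univ, true_and] at hZ
    obtain ⟨⟨i, hi1, hi2⟩, ⟨j, hj1, hj2⟩⟩ := hZ
    rw [Finset.mem_insert]
    by_cases h : Z p = X p
    · left
      have hjp : j = p := by
        by_contra hne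
        have := hj2 p (Ne.symm hne)
        exact hp (h.symm.trans this.symm)
      subst hjp
      funext k
      by_cases hk : k = j
      · subst hk
        rw [Function.update_self, h]
      · rw [Function.update_of_ne hk, hj2 k hk]
    · right
      have hip : i = p := by
        by_contra hne
        exact h (hi2 p (Ne.symm hne)).symm
      subst hip
      rw [Finset.mem_image]
      refine ⟨Z i, ?_, ?_⟩
      · simp only [Finset.mem_filter, Finset.mem_univ, true_and]
        exact hi1
      · funext k
        by_cases hk : k = i
        · subst hk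
          rw [Function.update_self]
        · rw [Function.update_of_ne hk, hi2 k hk]
  refine (Finset.card_le_card hsub).trans ?_
  refine (Finset.card_insert_le _ _).trans ?_
  have h1 : ((Finset.univ.filter fun a => H.Adj (X p) a).image
      fun a => Function.update X p a).card ≤ D := Finset.card_image_le.trans (hH (X p)).le
  omega

/-- average over the coordinate `i` -/
noncomputable def av {d : ℕ} (i : Fin d) (f : (Fin d → W) → ℝ) : (Fin d → W) → ℝ :=
  fun X => (∑ a, f (Function.update X i a)) / Fintype.card W

theorem sum_av [Nonempty W] (i : Fin d) (f : (Fin d → W) → ℝ) : ∑ X, av i f X = ∑ X, f X := by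
  have r := Bose.resample (V := W) i f
  rw [nsmul_eq_mul] at r
  have hq : (Fintype.card W : ℝ) ≠ 0 := by exact_mod_cast Fintype.card_ne_zero
  unfold av
  rw [← Finset.sum_div, r]
  field_simp

theorem av_update (i : Fin d) (f : (Fin d → W) → ℝ) (X : Fin d → W) (a : W) :
    av i f (Function.update X i a) = av i f X := by
  unfold av
  congr 1
  refine Finset.sum_congr rfl fun b _ => ?_
  rw [Function.update_idem]

theorem av_mul (i : Fin d) (f g : (Fin d → W) → ℝ) (hg : ∀ X a, g (Function.update X i a) = g X)
    (X : Fin d → W) : av i (fun Y => f Y * g Y) X = av i f X * g X := by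
  unfold av
  simp only [hg]
  rw [← Finset.sum_mul]
  ring

theorem av_const [Nonempty W] (i : Fin d) (g : (Fin d → W) → ℝ)
    (hg : ∀ X a, g (Function.update X i a) = g X) : av i g = g := by
  have hq : (Fintype.card W : ℝ) ≠ 0 := by exact_mod_cast Fintype.card_ne_zero
  funext X
  unfold av
  simp only [hg]
  rw [Finset.sum_const, Finset.card_univ, nsmul_eq_mul]
  field_simp

theorem av_comm (i j : Fin d) (f : (Fin d → W) → ℝ) : av i (av j f) = av j (av i f) := by
  by_cases hij : i = j
  · subst hij
    rfl
  · funext X
    unfold av
    rw [← Finset.sum_div, ← Finset.sum_div, Finset.sum_comm]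
    congr 2
    refine Finset.sum_congr rfl fun a _ => Finset.sum_congr rfl fun b _ => ?_
    rw [Function.update_comm hij]

theorem orth_av [Nonempty W] (i : Fin d) (f g : (Fin d → W) → ℝ)
    (hg : ∀ X a, g (Function.update X i a) = g X) :
    ∑ X, (f X - av i f X) * g X = 0 := by
  have h1 : ∑ X, f X * g X = ∑ X, av i f X * g X := by
    rw [← sum_av d i (fun X => f X * g X)]
    exact Finset.sum_congr rfl fun X _ => av_mul d i f g hg X
  simp only [sub_mul, Finset.sum_sub_distrib]
  rw [h1, sub_self]

theorem av_contract [Nonempty W] (i : Fin d) (f : (Fin d → W) → ℝ) :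
    ∑ X, av i f X ^ 2 ≤ ∑ X, f X ^ 2 := by
  have h1 := orth_av d i f (av i f) (av_update d i f)
  have h2 : ∑ X, f X ^ 2 = ∑ X, (f X - av i f X) ^ 2 + ∑ X, av i f X ^ 2 +
      2 * ∑ X, (f X - av i f X) * av i f X := by
    rw [Finset.mul_sum, ← Finset.sum_add_distrib, ← Finset.sum_add_distrib]
    refine Finset.sum_congr rfl fun X _ => ?_
    ring
  rw [h2, h1]
  have h3 : 0 ≤ ∑ X, (f X - av i f X) ^ 2 := Finset.sum_nonneg fun X _ => sq_nonneg _
  linarith

/-- iterated averages -/
noncomputable def avL (l : List (Fin d)) (f : (Fin d → W) → ℝ) : (Fin d → W) → ℝ :=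
  l.foldr (fun i g => av i g) f

theorem av_sub (i : Fin d) (f g : (Fin d → W) → ℝ) (X : Fin d → W) :
    av i (fun Y => f Y - g Y) X = av i f X - av i g X := by
  unfold av
  rw [Finset.sum_sub_distrib, sub_div]

theorem efron_stein [Nonempty W] (l : List (Fin d)) (f : (Fin d → W) → ℝ) :
    ∑ X, (f X - avL d l f X) ^ 2 ≤ (l.map fun i => ∑ X, (f X - av i f X) ^ 2).sum := by
  induction l with
  | nil => simp [avL]
  | cons i l ih =>
    have e1 : avL d (i :: l) f = av i (avL d l f) := rfl
    rw [List.map_cons, List.sum_cons, e1]
    set g := avL d l f with hg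
    have h1 := orth_av d i f (av i (fun Y => f Y - g Y)) (av_update d i _)
    have h2 : ∑ X, (f X - av i g X) ^ 2 = ∑ X, (f X - av i f X) ^ 2 +
        ∑ X, av i (fun Y => f Y - g Y) X ^ 2 +
        2 * ∑ X, (f X - av i f X) * av i (fun Y => f Y - g Y) X := by
      rw [Finset.mul_sum, ← Finset.sum_add_distrib, ← Finset.sum_add_distrib]
      refine Finset.sum_congr rfl fun X _ => ?_
      rw [av_sub]
      ring
    rw [h2, h1]
    have h3 := av_contract d i (fun Y => f Y - g Y)
    linarith

theorem avL_inv [Nonempty W] (l : List (Fin d)) (f : (Fin d → W) → ℝ) (i : Fin d) (hi : i ∈ l) :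
    ∀ X a, avL d l f (Function.update X i a) = avL d l f X := by
  induction l with
  | nil => exact absurd hi (by simp)
  | cons j l ih =>
    have e1 : avL d (j :: l) f = av j (avL d l f) := rfl
    rw [e1]
    by_cases hij : i = j
    · subst hij
      exact av_update d i _
    · have hi' : i ∈ l := by
        rcases List.mem_cons.1 hi with h | h
        · exact absurd h hij
        · exact h
      have h1 := ih hi'
      have h2 : av i (avL d l f) = avL d l f := av_const d i _ h1
      rw [← h2, av_comm]
      exact av_update d i _

theorem avL_sum [Nonempty W] (l : List (Fin d)) (f : (Fin d → W) → ℝ) :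
    ∑ X, avL d l f X = ∑ X, f X := by
  induction l with
  | nil => rfl
  | cons j l ih =>
    have e1 : avL d (j :: l) f = av j (avL d l f) := rfl
    rw [e1, sum_av, ih]

theorem const_of_inv (g : (Fin d → W) → ℝ) (hg : ∀ i X a, g (Function.update X i a) = g X)
    (X Y : Fin d → W) : g X = g Y := by
  classical
  have key : ∀ s : Finset (Fin d), g (fun i => if i ∈ s then Y i else X i) = g X := by
    intro s
    induction s using Finset.induction_on with
    | empty => simp
    | insert a s ha ih =>
      rw [← ih, ← hg a (fun i => if i ∈ s then Y i else X i) (Y a)]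
      congr 1
      funext i
      by_cases hi : i = a
      · subst hi
        simp
      · rw [Function.update_of_ne hi]
        simp [Finset.mem_insert, hi]
  have := key Finset.univ
  simpa using this.symm

theorem pow_gap (γ : ℝ) (hγ : 0 < γ) (hgap : HasGap H γ) : HasGap (powGraph H d) γ := by
  intro f hf
  rcases isEmpty_or_nonempty W with hW | hW
  · rcases Nat.eq_zero_or_pos d with hd | hd
    · subst hd
      have h1 : ∀ X, f X = 0 := by
        intro X
        rw [Fintype.sum_unique] at hf
        rw [← hf]
        congr 1
        exact Subsingleton.elim _ _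
      simp only [h1]
      simp
    · have : IsEmpty (Fin d → W) := by
        refine ⟨fun X => ?_⟩
        exact hW.false (X ⟨0, hd⟩)
      simp
  · have hq : (0 : ℝ) < Fintype.card W := by exact_mod_cast Fintype.card_pos
    -- the average is zero
    have h0 : ∀ X, avL d (Finset.univ.toList) f X = 0 := by
      have h1 := avL_sum d (Finset.univ.toList) f
      rw [hf] at h1
      have h2 : ∀ X Y, avL d (Finset.univ.toList) f X = avL d (Finset.univ.toList) f Y := by
        refine const_of_inv d _ fun i => ?_
        exact avL_inv d _ f i (by simp)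
      intro X
      have h3 : ∑ Y, avL d (Finset.univ.toList) f Y =
          Fintype.card (Fin d → W) * avL d (Finset.univ.toList) f X := by
        rw [Finset.sum_congr rfl fun Y _ => h2 Y X, Finset.sum_const, Finset.card_univ,
          nsmul_eq_mul]
      rw [h3] at h1
      rcases mul_eq_zero.1 h1 with h4 | h4
      · exfalso
        have : Fintype.card (Fin d → W) ≠ 0 := Fintype.card_ne_zero
        exact this (by exact_mod_cast h4)
      · exact h4
    have h1 := efron_stein d (Finset.univ.toList) f
    simp only [h0, sub_zero] at h1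
    rw [Finset.sum_map_toList] at h1
    -- one coordinate
    have h2 : ∀ i : Fin d, γ * ∑ X, (f X - av i f X) ^ 2 ≤
        ∑ X : Fin d → W, ∑ b, if H.Adj (X i) b then
          (f X - f (Function.update X i b)) ^ 2 / 2 else 0 := by
      intro i
      have r1 := Bose.resample (V := W) i (fun X => (f X - av i f X) ^ 2)
      have r2 := Bose.resample (V := W) i (fun X => ∑ b, if H.Adj (X i) b then
          (f X - f (Function.update X i b)) ^ 2 / 2 else 0)
      rw [nsmul_eq_mul] at r1 r2
      have h3 : (Fintype.card W : ℝ) * (γ * ∑ X, (f X - av i f X) ^ 2) ≤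
          Fintype.card W * ∑ X : Fin d → W, ∑ b, if H.Adj (X i) b then
          (f X - f (Function.update X i b)) ^ 2 / 2 else 0 := by
        rw [← r2]
        have e1 : (Fintype.card W : ℝ) * (γ * ∑ X, (f X - av i f X) ^ 2) =
            γ * (Fintype.card W * ∑ X, (f X - av i f X) ^ 2) := by ring
        rw [e1, ← r1, Finset.mul_sum]
        refine Finset.sum_le_sum fun X _ => ?_
        have h4 := hgap (fun a => f (Function.update X i a) - av i f X) (by
          rw [Finset.sum_sub_distrib, Finset.sum_const, Finset.card_univ, nsmul_eq_mul]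
          unfold av
          field_simp
          ring)
        simp only [av_update]
        refine h4.trans (le_of_eq ?_)
        refine Finset.sum_congr rfl fun a _ => Finset.sum_congr rfl fun b _ => ?_
        rw [Function.update_self, Function.update_idem, sub_sub_sub_cancel_right]
      exact le_of_mul_le_mul_left h3 hq
    have h5 : ∑ X, ∑ Y, (if (powGraph H d).Adj X Y then (f X - f Y) ^ 2 / 2 else 0) =
        ∑ i : Fin d, ∑ X : Fin d → W, ∑ b, if H.Adj (X i) b then
          (f X - f (Function.update X i b)) ^ 2 / 2 else 0 := by
      refine Eq.trans ?_ Finset.sum_comm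
      refine Finset.sum_congr rfl fun X _ => ?_
      exact nbr_sum H d X (fun Y => (f X - f Y) ^ 2 / 2)
    rw [h5]
    refine (mul_le_mul_of_nonneg_left h1 hγ.le).trans ?_
    rw [Finset.mul_sum]
    exact Finset.sum_le_sum fun i _ => h2 i

end Pool.Agent.Run7.h543.Star
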