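import Mathlib

/-!
# Spectral decomposition for vector valued functions
-/

set_option autoImplicit false
set_option linter.unusedSectionVars false

open scoped BigOperators RealInnerProductSpace

namespace Pool.Agent.Run7.h543.Star

variable {V : Type} [Fintype V] [DecidableEq V]

theorem exists_spectral (B : Matrix V V ℝ) (hB : ∀ x y, B x y = B y x) :
    ∃ (u : V → V → ℝ) (lam : V → ℝ), (∀ i j, ∑ x, u i x * u j x = if i = j then 1 else 0) ∧
      (∀ x y, ∑ i, u i x * u i y = if x = y then 1 else 0) ∧
      (∀ i x, ∑ y, B x y * u i y = lam i * u i x) := by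
  have hH : B.IsHermitian := by
    ext x y
    simp [Matrix.conjTranspose_apply, hB x y]
  set U : Matrix V V ℝ := (hH.eigenvectorUnitary : Matrix V V ℝ) with hU
  have h1 : U * star U = 1 := by
    have := hH.eigenvectorUnitary.2
    exact (Matrix.mem_unitaryGroup_iff).1 this
  have h2 : star U * U = 1 := by
    have := hH.eigenvectorUnitary.2
    exact (Matrix.mem_unitaryGroup_iff').1 this
  refine ⟨fun i x => U x i, hH.eigenvalues, ?_, ?_, ?_⟩
  · intro i j
    have h := congrFun (congrFun h2 i) j
    rw [Matrix.mul_apply, Matrix.one_apply] at h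
    rw [← h]
    refine Finset.sum_congr rfl fun x _ => ?_
    simp [Matrix.star_apply]
  · intro x y
    have h := congrFun (congrFun h1 x) y
    rw [Matrix.mul_apply, Matrix.one_apply] at h
    rw [← h]
    refine Finset.sum_congr rfl fun x _ => ?_
    simp [Matrix.star_apply]
  · intro i x
    have h := congrFun (hH.mulVec_eigenvectorBasis i) x
    simpa [Matrix.mulVec, dotProduct, hU, Matrix.IsHermitian.eigenvectorUnitary_apply] using h

variable {H : Type} [NormedAddCommGroup H] [InnerProductSpace ℝ H]

/-- action of a matrix on vector valued functions -/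
def act (M : Matrix V V ℝ) (φ : V → H) : V → H := fun x => ∑ y, M x y • φ y

theorem act_mul (M N : Matrix V V ℝ) (φ : V → H) : act (M * N) φ = act M (act N φ) := by
  funext x
  simp only [act, Matrix.mul_apply, Finset.sum_smul, Finset.smul_sum, smul_smul]
  rw [Finset.sum_comm]

theorem act_sub (M N : Matrix V V ℝ) (φ : V → H) (x : V) :
    act (M - N) φ x = act M φ x - act N φ x := by
  simp only [act, Matrix.sub_apply, sub_smul, Finset.sum_sub_distrib]

theorem act_add (M N : Matrix V V ℝ) (φ : V → H) (x : V) :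
    act (M + N) φ x = act M φ x + act N φ x := by
  simp only [act, Matrix.add_apply, add_smul, Finset.sum_add_distrib]

theorem act_diagonal (d : V → ℝ) (φ : V → H) (x : V) :
    act (Matrix.diagonal d) φ x = d x • φ x := by
  simp only [act, Matrix.diagonal_apply, ite_smul, zero_smul]
  rw [Finset.sum_ite_eq]
  simp

/-- coefficient of the eigenfunction `u` -/
def hat (u : V → ℝ) (φ : V → H) : H := ∑ x, u x • φ x

theorem parseval (u : V → V → ℝ)
    (hu : ∀ x y, ∑ i, u i x * u i y = if x = y then (1 : ℝ) else 0) (φ ψ : V → H) :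
    ∑ x, ⟪φ x, ψ x⟫ = ∑ i, ⟪hat (u i) φ, hat (u i) ψ⟫ := by
  have h1 : ∑ i, ⟪hat (u i) φ, hat (u i) ψ⟫ =
      ∑ x, ∑ y, (∑ i, u i x * u i y) * ⟪φ x, ψ y⟫ := by
    have h2 : ∀ i, ⟪hat (u i) φ, hat (u i) ψ⟫ = ∑ x, ∑ y, u i x * u i y * ⟪φ x, ψ y⟫ := by
      intro i
      simp only [hat]
      rw [sum_inner]
      refine Finset.sum_congr rfl fun x _ => ?_
      rw [inner_sum]
      refine Finset.sum_congr rfl fun y _ => ?_
      rw [real_inner_smul_left, real_inner_smul_right]
      ring
    rw [Finset.sum_congr rfl fun i _ => h2 i, Finset.sum_comm]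
    refine Finset.sum_congr rfl fun x _ => ?_
    rw [Finset.sum_comm]
    refine Finset.sum_congr rfl fun y _ => ?_
    rw [Finset.sum_mul]
  rw [h1]
  simp only [hu, ite_mul, one_mul, zero_mul, Finset.sum_ite_eq, Finset.mem_univ, if_true]

theorem hat_act (B : Matrix V V ℝ) (hB : ∀ x y, B x y = B y x) (u : V → ℝ) (l : ℝ)
    (hu : ∀ x, ∑ y, B x y * u y = l * u x) (φ : V → H) : hat u (act B φ) = l • hat u φ := by
  simp only [hat, act, Finset.smul_sum, smul_smul]
  rw [Finset.sum_comm]
  refine Finset.sum_congr rfl fun y _ => ?_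
  rw [← Finset.sum_smul, ← hu y]
  congr 1
  refine Finset.sum_congr rfl fun x _ => ?_
  rw [hB x y]
  ring

end Pool.Agent.Run7.h543.Star
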