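import Pool.Agent.Run7.h543.Star.Core
import Pool.Agent.Run7.h543.Star.Conc

/-!
# States of hard-core bosons with small energy
-/

set_option autoImplicit false
set_option linter.unusedSectionVars false

open scoped BigOperators RealInnerProductSpace

namespace Pool.Agent.Run7.h543.Star

variable {V : Type} [Fintype V] [DecidableEq V] {E : Type} [NormedAddCommGroup E]
  [InnerProductSpace ℝ E]

/-- indicator -/
def ind (x : V) (S : Finset V) : ℝ := if x ∈ S then 1 else 0

theorem norm_ann_sq (x : V) (F : Finset V → E) :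
    ∑ S, ‖ann x F S‖ ^ 2 = ∑ S, ind x S * ‖F S‖ ^ 2 := by
  have h1 : ∀ S : Finset V, ‖ann x F S‖ ^ 2 =
      if x ∈ S then 0 else (fun T => ‖F T‖ ^ 2) (insert x S) := by
    intro S
    unfold ann
    split_ifs with h <;> simp
  rw [Finset.sum_congr rfl fun S _ => h1 S, sum_shift x (fun T => ‖F T‖ ^ 2)]
  refine Finset.sum_congr rfl fun S _ => ?_
  unfold ind
  split_ifs <;> simp

theorem norm_ann_ann_sq (x y : V) (hxy : x ≠ y) (F : Finset V → E) :
    ∑ S, ‖ann y (ann x F) S‖ ^ 2 = ∑ S, ind x S * ind y S * ‖F S‖ ^ 2 := by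
  rw [norm_ann_sq]
  have h1 : ∀ S : Finset V, ind y S * ‖ann x F S‖ ^ 2 =
      if x ∈ S then 0 else (fun T => ind y T * ‖F T‖ ^ 2) (insert x S) := by
    intro S
    unfold ann ind
    by_cases hx : x ∈ S
    · simp [hx]
    · by_cases hy : y ∈ S
      · simp [hx, hy]
      · simp [hx, hy, Ne.symm hxy]
  rw [Finset.sum_congr rfl fun S _ => h1 S, sum_shift x (fun T => ind y T * ‖F T‖ ^ 2)]
  refine Finset.sum_congr rfl fun S _ => ?_
  unfold ind
  by_cases hx : x ∈ S <;> by_cases hy : y ∈ S <;> simp [hx, hy]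

theorem sum_ind (S : Finset V) : ∑ x, ind x S = S.card := by
  unfold ind
  rw [Finset.sum_ite_mem, Finset.univ_inter, Finset.sum_const, nsmul_eq_mul, mul_one]

theorem state_bound (G : SimpleGraph V) [DecidableRel G.Adj] (D Γ : ℕ) (hD : 0 < D)
    (hG : ∀ x, (Finset.univ.filter fun y => G.Adj x y).card = D)
    (hΓ : ∀ x y, x ≠ y → (Finset.univ.filter fun z => G.Adj x z ∧ G.Adj y z).card ≤ Γ)
    (γ : ℝ) (hγ : 0 < γ) (hγD : γ ≤ D) (hgap : HasGap G γ)
    (N : ℕ) (hN0 : 0 < N) (hNn : N ≤ Fintype.card V) (Ψ : Finset V → E) (hΨ : IsState N Ψ)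
    (e : ℝ) (he : 0 ≤ e) (hE : kin G Ψ ≤ (D * (N / Fintype.card V) + e) * N) :
    ((1 - (N : ℝ) / Fintype.card V) * (1 - 1 / (2 * γ)) - e / γ -
      26 * (1 + 1 / γ) * ((1 + e) / Real.sqrt D + (1 + Γ) / D)) * N ≤ cond Ψ := by
  have hN0' : (0 : ℝ) < N := by exact_mod_cast hN0
  have hNn' : (N : ℝ) ≤ Fintype.card V := by exact_mod_cast hNn
  have hn : (0 : ℝ) < Fintype.card V := lt_of_lt_of_le hN0' hNn'
  have hD0 : (0 : ℝ) < D := by exact_mod_cast hD
  set n : ℝ := (Fintype.card V : ℝ) with hndef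
  set B := hcb V E with hB
  set Ψ' : Hil V E := WithLp.toLp 2 Ψ with hΨ'
  have hφ : ∀ x, B.a x Ψ' = WithLp.toLp 2 (ann x Ψ) := fun x => rfl
  have hφφ : ∀ x y, B.a y (B.a x Ψ') = WithLp.toLp 2 (ann y (ann x Ψ)) := fun x y => rfl
  have hnormΨ : ‖Ψ'‖ = 1 := by
    have h1 : ‖Ψ'‖ ^ 2 = 1 := by
      rw [hΨ', norm_toLp_sq]
      exact hΨ.1
    have h2 : 0 ≤ ‖Ψ'‖ := norm_nonneg _
    nlinarith
  set P : Finset V → ℝ := fun S => ‖Ψ S‖ ^ 2 with hP
  have hP0 : ∀ S, 0 ≤ P S := fun S => sq_nonneg _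
  have hP1 : ∑ S, P S = 1 := hΨ.1
  have hPN : ∀ S, P S * S.card = P S * N := by
    intro S
    by_cases h : S.card = N
    · rw [h]
    · rw [hP]
      simp only
      rw [hΨ.2 S h]
      simp
  have hρ : ∀ x, ‖B.a x Ψ'‖ ^ 2 = ∑ S, ind x S * P S := by
    intro x
    rw [hφ, norm_toLp_sq, norm_ann_sq]
  have hpp : ∀ x y, x ≠ y → ‖B.a y (B.a x Ψ')‖ ^ 2 = ∑ S, ind x S * ind y S * P S := by
    intro x y hxy
    rw [hφφ, norm_toLp_sq, norm_ann_ann_sq x y hxy]
  have hNsum : ∑ x, ‖B.a x Ψ'‖ ^ 2 = N := by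
    simp only [hρ]
    rw [Finset.sum_comm]
    have h1 : ∀ S : Finset V, ∑ x, ind x S * P S = P S * N := by
      intro S
      rw [← Finset.sum_mul, sum_ind, mul_comm, hPN]
    rw [Finset.sum_congr rfl fun S _ => h1 S, ← Finset.sum_mul, hP1, one_mul]
  set T : Matrix V V ℝ := hop G D with hT
  have hrow : ∀ x, ∑ y, T x y = 1 := hop_row hG hD
  have hcol : ∀ y, ∑ x, T x y = 1 := by
    intro y
    rw [← hrow y]
    exact Finset.sum_congr rfl fun x _ => hop_symm x y
  -- densities
  set ν : V → Finset V → ℝ := fun x S => ∑ y, T x y * ind y S with hν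
  have hνsum : ∀ S, ∑ x, ν x S = S.card := by
    intro S
    rw [hν]
    simp only
    rw [Finset.sum_comm]
    simp only [← Finset.sum_mul, hcol, one_mul]
    exact sum_ind S
  -- pair sum
  have hpair : ∑ x, ∑ y, T x y * ‖B.a y (B.a x Ψ')‖ ^ 2 = ∑ S, P S * ∑ x, ind x S * ν x S := by
    have h1 : ∀ x y, T x y * ‖B.a y (B.a x Ψ')‖ ^ 2 =
        ∑ S, P S * (ind x S * (T x y * ind y S)) := by
      intro x y
      by_cases hxy : x = y
      · subst hxy
        rw [hT, hop_diag]
        simp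
      · rw [hpp x y hxy, Finset.mul_sum]
        refine Finset.sum_congr rfl fun S _ => ?_
        ring
    simp only [h1]
    have h2 : ∀ x, ∑ y, ∑ S, P S * (ind x S * (T x y * ind y S)) =
        ∑ S, P S * (ind x S * ν x S) := by
      intro x
      rw [Finset.sum_comm]
      refine Finset.sum_congr rfl fun S _ => ?_
      rw [hν]
      simp only
      rw [Finset.mul_sum, Finset.mul_sum]
    rw [Finset.sum_congr rfl fun x _ => h2 x, Finset.sum_comm]
    refine Finset.sum_congr rfl fun S _ => ?_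
    rw [Finset.mul_sum]
  set P1 : ℝ := (∑ S, P S * ∑ x, ind x S * ν x S) / N with hP1def
  set σ2 : ℝ := (∑ S, ∑ x, P S * (ν x S - N / n) ^ 2) / N with hσdef
  have hν0 : ∀ x S, 0 ≤ ν x S := by
    intro x S
    refine Finset.sum_nonneg fun y _ => mul_nonneg (hop_nonneg _ _) ?_
    unfold ind
    split_ifs <;> norm_num
  have hind0 : ∀ (x : V) S, 0 ≤ ind x S := by
    intro x S
    unfold ind
    split_ifs <;> norm_num
  have hP1pos : 0 ≤ P1 := by
    refine div_nonneg ?_ hN0'.le
    refine Finset.sum_nonneg fun S _ => mul_nonneg (hP0 S) ?_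
    exact Finset.sum_nonneg fun x _ => mul_nonneg (hind0 x S) (hν0 x S)
  have hσpos : 0 ≤ σ2 := by
    refine div_nonneg ?_ hN0'.le
    exact Finset.sum_nonneg fun S _ => Finset.sum_nonneg fun x _ =>
      mul_nonneg (hP0 S) (sq_nonneg _)
  have hPσ : (P1 - N / n) ^ 2 ≤ σ2 := by
    -- Cauchy–Schwarz
    have h1 : N * (P1 - N / n) = ∑ q : Finset V × V, P q.1 * (ind q.2 q.1 * (ν q.2 q.1 - N / n)) := by
      rw [Fintype.sum_prod_type]
      have h2 : N * P1 = ∑ S, P S * ∑ x, ind x S * ν x S := by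
        rw [hP1def]
        field_simp
      have h3 : ∑ S, P S * ∑ x, ind x S = N := by
        have : ∀ S : Finset V, P S * ∑ x, ind x S = P S * N := by
          intro S
          rw [sum_ind, hPN]
        rw [Finset.sum_congr rfl fun S _ => this S, ← Finset.sum_mul, hP1, one_mul]
      have h4 : (N : ℝ) * (N / n) = ∑ S, P S * ∑ x, ind x S * (N / n) := by
        have : ∀ S : Finset V, P S * ∑ x, ind x S * (N / n) = (P S * ∑ x, ind x S) * (N / n) := by
          intro S
          rw [← Finset.sum_mul]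
          ring
        rw [Finset.sum_congr rfl fun S _ => this S, ← Finset.sum_mul, h3]
      rw [mul_sub, h2, h4, ← Finset.sum_sub_distrib]
      refine Finset.sum_congr rfl fun S _ => ?_
      rw [← mul_sub, ← Finset.sum_sub_distrib, Finset.mul_sum]
      refine Finset.sum_congr rfl fun x _ => ?_
      ring
    have h5 : ∑ q : Finset V × V, P q.1 * ind q.2 q.1 = N := by
      rw [Fintype.sum_prod_type]
      have : ∀ S : Finset V, ∑ x, P S * ind x S = P S * N := by
        intro S
        rw [← Finset.mul_sum, sum_ind, hPN]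
      rw [Finset.sum_congr rfl fun S _ => this S, ← Finset.sum_mul, hP1, one_mul]
    have h6 : ∑ q : Finset V × V, P q.1 * (ν q.2 q.1 - N / n) ^ 2 = N * σ2 := by
      have aux : ∀ A : ℝ, A = N * (A / N) := fun A => by field_simp
      rw [Fintype.sum_prod_type, hσdef]
      exact aux _
    have h7 := Finset.sum_sq_le_sum_mul_sum_of_sq_le_mul (Finset.univ : Finset (Finset V × V))
      (r := fun q => P q.1 * (ind q.2 q.1 * (ν q.2 q.1 - N / n)))
      (f := fun q => P q.1 * ind q.2 q.1)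
      (g := fun q => P q.1 * (ν q.2 q.1 - N / n) ^ 2)
      (fun q _ => mul_nonneg (hP0 _) (hind0 _ _)) (fun q _ => mul_nonneg (hP0 _) (sq_nonneg _))
      (fun q _ => by
        have h8 : ind q.2 q.1 ^ 2 = ind q.2 q.1 := by
          unfold ind
          split_ifs <;> norm_num
        refine le_of_eq ?_
        have h9 : (P q.1 * (ind q.2 q.1 * (ν q.2 q.1 - N / n))) ^ 2 =
          P q.1 * ind q.2 q.1 ^ 2 * (P q.1 * (ν q.2 q.1 - N / n) ^ 2) := by ring
        rw [h9, h8])
    rw [← h1, h5, h6] at h7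
    have h8 : (N : ℝ) ^ 2 * (P1 - N / n) ^ 2 ≤ N ^ 2 * σ2 := by
      calc (N : ℝ) ^ 2 * (P1 - N / n) ^ 2 = (N * (P1 - N / n)) ^ 2 := by ring
        _ ≤ N * (N * σ2) := h7
        _ = N ^ 2 * σ2 := by ring
    exact le_of_mul_le_mul_left h8 (by positivity)
  have hU : (∑ x, ‖act T (fun y => B.a y Ψ') x‖ ^ 2) / N + σ2 ≤ 1 - N / n + 1 / D := by
    -- per site
    have h1 : ∀ x, ‖act T (fun y => B.a y Ψ') x‖ ^ 2 + ∑ S, P S * ν x S ^ 2 ≤
        (1 + 1 / D) * ∑ y, T x y * ‖B.a y Ψ'‖ ^ 2 := by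
      intro x
      have h2 : ‖act T (fun y => B.a y Ψ') x‖ ^ 2 =
          ∑ y, ∑ z, T x y * T x z * ⟪B.a y Ψ', B.a z Ψ'⟫ := by
        rw [← real_inner_self_eq_norm_sq, act, sum_inner]
        refine Finset.sum_congr rfl fun y _ => ?_
        rw [inner_sum]
        refine Finset.sum_congr rfl fun z _ => ?_
        rw [real_inner_smul_left, real_inner_smul_right]
        ring
      have h3 : ∑ S, P S * ν x S ^ 2 =
          ∑ y, ∑ z, T x y * T x z * ∑ S, ind y S * ind z S * P S := by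
        have h4 : ∀ S, P S * ν x S ^ 2 =
            ∑ y, ∑ z, T x y * T x z * (ind y S * ind z S * P S) := by
          intro S
          rw [hν]
          simp only
          rw [pow_two, Finset.sum_mul_sum, Finset.mul_sum]
          refine Finset.sum_congr rfl fun y _ => ?_
          rw [Finset.mul_sum]
          refine Finset.sum_congr rfl fun z _ => ?_
          ring
        rw [Finset.sum_congr rfl fun S _ => h4 S, Finset.sum_comm]
        refine Finset.sum_congr rfl fun y _ => ?_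
        rw [Finset.sum_comm]
        refine Finset.sum_congr rfl fun z _ => ?_
        rw [Finset.mul_sum]
      rw [h2, h3, ← Finset.sum_add_distrib]
      have h5 : ∀ y z, T x y * T x z * ⟪B.a y Ψ', B.a z Ψ'⟫ +
          T x y * T x z * ∑ S, ind y S * ind z S * P S ≤
          T x y * T x z * ((‖B.a y Ψ'‖ ^ 2 + ‖B.a z Ψ'‖ ^ 2) / 2) +
          (if z = y then T x y * T x z * ‖B.a y Ψ'‖ ^ 2 else 0) := by
        intro y z
        have hT0 : 0 ≤ T x y * T x z := mul_nonneg (hop_nonneg _ _) (hop_nonneg _ _)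
        by_cases hyz : z = y
        · subst hyz
          rw [if_pos rfl]
          have h6 : ∑ S, ind z S * ind z S * P S = ‖B.a z Ψ'‖ ^ 2 := by
            rw [hρ]
            refine Finset.sum_congr rfl fun S _ => ?_
            have : ind z S * ind z S = ind z S := by
              unfold ind
              split_ifs <;> norm_num
            rw [this]
          rw [h6, real_inner_self_eq_norm_sq]
          refine le_of_eq ?_
          ring
        · rw [if_neg hyz, add_zero, ← mul_add]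
          refine mul_le_mul_of_nonneg_left ?_ hT0
          rw [← hpp y z (Ne.symm hyz)]
          have h7 := B.pair Ψ' z y hyz
          rw [real_inner_comm] at h7
          linarith
      refine (Finset.sum_le_sum (g := fun y =>
        ∑ z, T x y * T x z * ((‖B.a y Ψ'‖ ^ 2 + ‖B.a z Ψ'‖ ^ 2) / 2) +
          T x y * T x y * ‖B.a y Ψ'‖ ^ 2) fun y _ => ?_).trans (le_of_eq ?_)
      · rw [← Finset.sum_add_distrib]
        refine (Finset.sum_le_sum fun z _ => h5 y z).trans (le_of_eq ?_)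
        rw [Finset.sum_add_distrib, Finset.sum_ite_eq']
        simp
      · rw [Finset.sum_add_distrib]
        have h6 : ∑ y, ∑ z, T x y * T x z * ((‖B.a y Ψ'‖ ^ 2 + ‖B.a z Ψ'‖ ^ 2) / 2) =
            ∑ y, T x y * ‖B.a y Ψ'‖ ^ 2 := by
          have h7 : ∀ y z, T x y * T x z * ((‖B.a y Ψ'‖ ^ 2 + ‖B.a z Ψ'‖ ^ 2) / 2) =
              (1 / 2) * (T x z * (T x y * ‖B.a y Ψ'‖ ^ 2)) +
              (1 / 2) * (T x y * (T x z * ‖B.a z Ψ'‖ ^ 2)) := by
            intro y z
            ring
          simp only [h7, Finset.sum_add_distrib, ← Finset.mul_sum, ← Finset.sum_mul, hrow, one_mul]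
          ring
        have h8 : ∑ y, T x y * T x y * ‖B.a y Ψ'‖ ^ 2 =
            1 / D * ∑ y, T x y * ‖B.a y Ψ'‖ ^ 2 := by
          rw [Finset.mul_sum]
          refine Finset.sum_congr rfl fun y _ => ?_
          have : T x y * T x y = 1 / D * T x y := by
            rw [hT]
            unfold hop
            split_ifs <;> ring
          rw [this]
          ring
        rw [h6, h8]
        ring
    have h2 := Finset.sum_le_sum fun x (_ : x ∈ (Finset.univ : Finset V)) => h1 x
    rw [Finset.sum_add_distrib, ← Finset.mul_sum] at h2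
    have h3 : ∑ x, ∑ y, T x y * ‖B.a y Ψ'‖ ^ 2 = N := by
      rw [Finset.sum_comm]
      simp only [← Finset.sum_mul, hcol, one_mul]
      exact hNsum
    rw [h3] at h2
    have h4 : ∑ S, ∑ x, P S * (ν x S - N / n) ^ 2 = ∑ x, ∑ S, P S * ν x S ^ 2 - N * (N / n) := by
      have h5 : ∀ S, ∑ x, P S * (ν x S - N / n) ^ 2 =
          ∑ x, P S * ν x S ^ 2 - P S * (N * (N / n)) := by
        intro S
        have h6 : ∀ x, P S * (ν x S - N / n) ^ 2 = P S * ν x S ^ 2 -
            (2 * (N / n)) * P S * ν x S + P S * (N / n) ^ 2 := by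
          intro x
          ring
        simp only [h6, Finset.sum_add_distrib, Finset.sum_sub_distrib, ← Finset.mul_sum, hνsum]
        rw [Finset.sum_const, Finset.card_univ, nsmul_eq_mul, ← hndef]
        have h7 := hPN S
        have h8 : 2 * (↑N / n) * P S * ↑S.card = 2 * (↑N / n) * (P S * ↑S.card) := by ring
        rw [h8, h7]
        field_simp
        ring
      rw [Finset.sum_congr rfl fun S _ => h5 S, Finset.sum_sub_distrib, ← Finset.sum_mul, hP1,
        one_mul, Finset.sum_comm]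
    rw [hσdef, h4, ← add_div, div_le_iff₀ hN0']
    have h5 : (1 - N / n + 1 / D) * N = (1 + 1 / D) * N - N * (N / n) := by ring
    rw [h5]
    linarith
  -- kinetic energy
  have hkin : kin G Ψ = D * N - D * ∑ x, ⟪B.a x Ψ', act T (fun y => B.a y Ψ') x⟫ := by
    have h1 : ∀ x y, (if G.Adj x y then (∑ S : Finset V, ‖ann x Ψ S - ann y Ψ S‖ ^ 2) / 2 else 0) =
        D * (1 / 2 * (T x y * ‖B.a x Ψ'‖ ^ 2) + 1 / 2 * (T x y * ‖B.a y Ψ'‖ ^ 2) -
          ⟪B.a x Ψ', T x y • B.a y Ψ'⟫) := by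
      intro x y
      have h2 : ∑ S : Finset V, ‖ann x Ψ S - ann y Ψ S‖ ^ 2 = ‖B.a x Ψ' - B.a y Ψ'‖ ^ 2 := by
        rw [hφ, hφ, ← WithLp.toLp_sub, norm_toLp_sq]
        rfl
      rw [h2, norm_sub_sq_real, real_inner_smul_right, hT]
      unfold hop
      split_ifs
      · field_simp
        ring
      · ring
    unfold kin
    simp only [h1, ← Finset.mul_sum, Finset.sum_sub_distrib, Finset.sum_add_distrib,
      ← Finset.sum_mul, hrow, one_mul]
    have h3 : ∑ x, ∑ y, T x y * ‖B.a y Ψ'‖ ^ 2 = N := by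
      rw [Finset.sum_comm]
      simp only [← Finset.sum_mul, hcol, one_mul]
      exact hNsum
    rw [h3, hNsum]
    have h4 : ∀ x, ∑ y, ⟪B.a x Ψ', T x y • B.a y Ψ'⟫ =
        ⟪B.a x Ψ', act T (fun y => B.a y Ψ') x⟫ := by
      intro x
      rw [act, inner_sum]
    rw [Finset.sum_congr rfl fun x _ => h4 x]
    ring
  have key := core B G D Γ hD hG hΓ γ hγ hγD hgap Ψ' hnormΨ N hN0' hNsum hNn' e he
    (by
      rw [hkin] at hE
      have h1 : D * ((1 - N / n - e / D) * N) = D * N - (D * (N / n) + e) * N := by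
        field_simp
        ring
      have h2 : D * ((1 - N / n - e / D) * N) ≤
          D * ∑ x, ⟪B.a x Ψ', act T (fun y => B.a y Ψ') x⟫ := by
        rw [h1]
        linarith
      exact le_of_mul_le_mul_left h2 hD0)
    P1 σ2 hP1pos hσpos
    (by
      rw [hpair, hP1def]
      field_simp)
    hPσ hU
  have h9 : cond Ψ = (‖∑ x, B.a x Ψ'‖ ^ 2 / (n * N)) * N := by
    have h10 : ∑ x, B.a x Ψ' = WithLp.toLp 2 (fun S => ∑ x, ann x Ψ S) := by
      ext S
      simp only [hφ]
      rw [WithLp.ofLp_sum, Finset.sum_apply]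
    rw [h10, norm_toLp_sq]
    unfold cond
    rw [← hndef]
    field_simp
  rw [h9]
  exact mul_le_mul_of_nonneg_right key hN0'.le

end Pool.Agent.Run7.h543.Star
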