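import Pool.Agent.Run7.h543.Star.State

/-!
# The trial state
-/

set_option autoImplicit false
set_option linter.unusedSectionVars false

open scoped BigOperators RealInnerProductSpace

namespace Pool.Agent.Run7.h543.Star

variable {V : Type} [Fintype V] [DecidableEq V]

theorem choose_identity (n N : ℕ) (hn : 2 ≤ n) (hN : 1 ≤ N) (hNn : N ≤ n) :
    (n : ℝ) * (n - 1) * ((n - 2).choose (N - 1) : ℝ) = N * (n - N) * (n.choose N : ℝ) := by
  obtain ⟨m, rfl⟩ : ∃ m, n = m + 2 := ⟨n - 2, by omega⟩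
  obtain ⟨k, rfl⟩ : ∃ k, N = k + 1 := ⟨N - 1, by omega⟩
  have h1 := Nat.add_one_mul_choose_eq (m + 1) k
  have h2 := Nat.choose_mul_succ_eq m k
  have h3 : k ≤ m + 1 := by omega
  have h1' : ((m : ℝ) + 2) * ((m + 1).choose k : ℝ) = ((m + 2).choose (k + 1) : ℝ) * (k + 1) := by
    have h4 := congrArg (Nat.cast : ℕ → ℝ) h1
    push_cast at h4
    have e : (m + 1 + 1).choose (k + 1) = (m + 2).choose (k + 1) := rfl
    rw [e] at h4
    linarith
  have h2' : (m.choose k : ℝ) * (m + 1) = ((m + 1).choose k : ℝ) * (m + 1 - k) := by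
    have h4 := congrArg (Nat.cast : ℕ → ℝ) h2
    push_cast [Nat.cast_sub h3] at h4
    linarith
  have e1 : m + 2 - 2 = m := by omega
  have e2 : k + 1 - 1 = k := by omega
  rw [e1, e2]
  push_cast
  have h5 : ((m : ℝ) + 2) * (m + 2 - 1) * (m.choose k : ℝ) =
      (m + 2) * ((m.choose k : ℝ) * (m + 1)) := by ring
  rw [h5, h2']
  have h6 : ((m : ℝ) + 2) * (((m + 1).choose k : ℝ) * (m + 1 - k)) =
      (((m : ℝ) + 2) * ((m + 1).choose k : ℝ)) * (m + 1 - k) := by ring
  rw [h6, h1']
  ring

/-- number of the sets of `k` elements which contain neither `x` nor `y` -/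
theorem card_avoid (x y : V) (hxy : x ≠ y) (k : ℕ) :
    (Finset.univ.filter fun S : Finset V => S.card = k ∧ x ∉ S ∧ y ∉ S).card =
      (Fintype.card V - 2).choose k := by
  have h1 : (Finset.univ.filter fun S : Finset V => S.card = k ∧ x ∉ S ∧ y ∉ S) =
      Finset.powersetCard k (Finset.univ \ {x, y}) := by
    ext S
    simp only [Finset.mem_filter, Finset.mem_univ, true_and, Finset.mem_powersetCard]
    constructor
    · rintro ⟨h1, h2, h3⟩
      refine ⟨?_, h1⟩
      intro z hz
      simp only [Finset.mem_sdiff, Finset.mem_univ, true_and, Finset.mem_insert,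
        Finset.mem_singleton]
      rintro (h | h)
      · exact h2 (h ▸ hz)
      · exact h3 (h ▸ hz)
    · rintro ⟨h1, h2⟩
      refine ⟨h2, ?_, ?_⟩
      · intro hx
        have := h1 hx
        simp at this
      · intro hy
        have := h1 hy
        simp at this
  rw [h1, Finset.card_powersetCard, Finset.card_sdiff_of_subset (Finset.subset_univ _),
    Finset.card_univ, Finset.card_pair hxy]

theorem kin_eq (G : SimpleGraph V) [DecidableRel G.Adj] (D : ℕ) (hD : 0 < D)
    (hG : ∀ x, (Finset.univ.filter fun y => G.Adj x y).card = D) (Ψ : Finset V → ℂ) :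
    kin G Ψ = D * ∑ x, ∑ S, ind x S * ‖Ψ S‖ ^ 2 -
      D * ∑ x, ∑ y, hop G D x y * ∑ S, ⟪ann x Ψ S, ann y Ψ S⟫ := by
  have hD0 : (0 : ℝ) < D := by exact_mod_cast hD
  have hrow : ∀ x, ∑ y, hop G D x y = 1 := hop_row hG hD
  have hcol : ∀ y, ∑ x, hop G D x y = 1 := by
    intro y
    rw [← hrow y]
    exact Finset.sum_congr rfl fun x _ => hop_symm x y
  have h1 : ∀ x y, (if G.Adj x y then (∑ S : Finset V, ‖ann x Ψ S - ann y Ψ S‖ ^ 2) / 2 else 0) =
      D * (1 / 2 * (hop G D x y * ∑ S, ind x S * ‖Ψ S‖ ^ 2) +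
        1 / 2 * (hop G D x y * ∑ S, ind y S * ‖Ψ S‖ ^ 2) -
        hop G D x y * ∑ S, ⟪ann x Ψ S, ann y Ψ S⟫) := by
    intro x y
    have h2 : ∑ S : Finset V, ‖ann x Ψ S - ann y Ψ S‖ ^ 2 =
        ∑ S, ind x S * ‖Ψ S‖ ^ 2 + ∑ S, ind y S * ‖Ψ S‖ ^ 2 -
          2 * ∑ S, ⟪ann x Ψ S, ann y Ψ S⟫ := by
      rw [← norm_ann_sq, ← norm_ann_sq, Finset.mul_sum, ← Finset.sum_add_distrib,
        ← Finset.sum_sub_distrib]
      refine Finset.sum_congr rfl fun S _ => ?_
      rw [norm_sub_sq_real]
      ring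
    rw [h2]
    unfold hop
    split_ifs
    · field_simp
    · ring
  unfold kin
  simp only [h1, ← Finset.mul_sum, Finset.sum_sub_distrib, Finset.sum_add_distrib,
    ← Finset.sum_mul, hrow, one_mul]
  have h3 : ∑ x, ∑ y, hop G D x y * ∑ S, ind y S * ‖Ψ S‖ ^ 2 = ∑ x, ∑ S, ind x S * ‖Ψ S‖ ^ 2 := by
    rw [Finset.sum_comm]
    simp only [← Finset.sum_mul, hcol, one_mul]
  rw [h3]
  ring

/-- the uniform superposition of the configurations of `N` particles -/
theorem exists_trial (G : SimpleGraph V) [DecidableRel G.Adj] (D : ℕ) (hD : 0 < D)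
    (hG : ∀ x, (Finset.univ.filter fun y => G.Adj x y).card = D)
    (N : ℕ) (hN0 : 0 < N) (hNn : N ≤ Fintype.card V) (U : Finset V → ℝ) (w : ℝ)
    (hU : ∑ S ∈ Finset.powersetCard N Finset.univ, U S ≤ w * N * (Fintype.card V).choose N) :
    ∃ Φ : Finset V → ℂ, IsState N Φ ∧
      energy G U Φ ≤ (D * ((N : ℝ) / Fintype.card V) + w) * N := by
  have hN0' : (0 : ℝ) < N := by exact_mod_cast hN0
  have hNn' : (N : ℝ) ≤ Fintype.card V := by exact_mod_cast hNn
  set n : ℕ := Fintype.card V with hn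
  have hnpos : (0 : ℝ) < n := lt_of_lt_of_le hN0' hNn'
  have hD0 : (0 : ℝ) < D := by exact_mod_cast hD
  have hC : 0 < n.choose N := Nat.choose_pos hNn
  have hC' : (0 : ℝ) < n.choose N := by exact_mod_cast hC
  set c : ℝ := 1 / Real.sqrt (n.choose N) with hc
  have hc2 : c ^ 2 = 1 / n.choose N := by
    rw [hc, div_pow, Real.sq_sqrt hC'.le, one_pow]
  set Φ : Finset V → ℂ := fun S => if S.card = N then (c : ℂ) else 0 with hΦ
  have hΦn : ∀ S, ‖Φ S‖ ^ 2 = if S.card = N then c ^ 2 else 0 := by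
    intro S
    rw [hΦ]
    simp only
    split_ifs
    · rw [Complex.norm_real, Real.norm_eq_abs, sq_abs]
    · simp
  have hfilter : (Finset.univ.filter fun S : Finset V => S.card = N) =
      Finset.powersetCard N Finset.univ := by
    ext S
    simp [Finset.mem_powersetCard]
  have hstate : IsState N Φ := by
    refine ⟨?_, ?_⟩
    · simp only [hΦn]
      rw [← Finset.sum_filter, hfilter, Finset.sum_const, Finset.card_powersetCard,
        Finset.card_univ, ← hn, nsmul_eq_mul, hc2]
      field_simp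
    · intro S hS
      rw [hΦ]
      simp only
      rw [if_neg hS]
  -- degree positive means at least two vertices
  have hne : Nonempty V := by
    rw [← Fintype.card_pos_iff, ← hn]
    exact_mod_cast hnpos
  have hn2 : 2 ≤ n := by
    obtain ⟨x⟩ := hne
    have h1 := hG x
    have h2 : (Finset.univ.filter fun y => G.Adj x y).Nonempty := by
      rw [← Finset.card_pos, h1]
      exact hD
    obtain ⟨y, hy⟩ := h2
    have h3 : G.Adj x y := (Finset.mem_filter.1 hy).2
    have h4 : x ≠ y := h3.ne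
    rw [hn]
    exact Fintype.one_lt_card_iff.2 ⟨x, y, h4⟩
  refine ⟨Φ, hstate, ?_⟩
  have hpot : ∑ S, U S * ‖Φ S‖ ^ 2 ≤ w * N := by
    simp only [hΦn, mul_ite, mul_zero]
    rw [← Finset.sum_filter, hfilter, ← Finset.sum_mul, hc2, mul_one_div, div_le_iff₀ hC']
    exact hU
  have hkin : kin G Φ ≤ D * ((N : ℝ) / n) * N := by
    rw [kin_eq G D hD hG Φ]
    have h1 : ∑ x, ∑ S, ind x S * ‖Φ S‖ ^ 2 = N := by
      rw [Finset.sum_comm]
      have h2 : ∀ S : Finset V, ∑ x, ind x S * ‖Φ S‖ ^ 2 = ‖Φ S‖ ^ 2 * N := by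
        intro S
        rw [← Finset.sum_mul, sum_ind, mul_comm]
        by_cases h : S.card = N
        · rw [h]
        · rw [hstate.2 S h]
          simp
      rw [Finset.sum_congr rfl fun S _ => h2 S, ← Finset.sum_mul, hstate.1, one_mul]
    have h3 : ∀ x y, x ≠ y → ∑ S, ⟪ann x Φ S, ann y Φ S⟫ =
        c ^ 2 * ((n - 2).choose (N - 1) : ℝ) := by
      intro x y hxy
      have h4 : ∀ S : Finset V, ⟪ann x Φ S, ann y Φ S⟫ =
          if S.card = N - 1 ∧ x ∉ S ∧ y ∉ S then c ^ 2 else 0 := by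
        intro S
        unfold ann
        by_cases hx : x ∈ S
        · simp [hx]
        · by_cases hy : y ∈ S
          · simp [hy]
          · rw [if_neg hx, if_neg hy, hΦ]
            simp only [Finset.card_insert_of_notMem hx, Finset.card_insert_of_notMem hy]
            by_cases hS : S.card = N - 1
            · have h5 : S.card + 1 = N := by omega
              rw [if_pos h5, if_pos ⟨hS, hx, hy⟩, real_inner_self_eq_norm_sq, Complex.norm_real,
                Real.norm_eq_abs, sq_abs]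
            · have h5 : ¬ S.card + 1 = N := by omega
              rw [if_neg h5, if_neg (fun h => hS h.1)]
              simp
      rw [Finset.sum_congr rfl fun S _ => h4 S, ← Finset.sum_filter, Finset.sum_const,
        card_avoid x y hxy, nsmul_eq_mul, mul_comm]
    have h6 : ∑ x, ∑ y, hop G D x y * ∑ S, ⟪ann x Φ S, ann y Φ S⟫ =
        n * (c ^ 2 * ((n - 2).choose (N - 1) : ℝ)) := by
      have h7 : ∀ x y, hop G D x y * ∑ S, ⟪ann x Φ S, ann y Φ S⟫ =
          hop G D x y * (c ^ 2 * ((n - 2).choose (N - 1) : ℝ)) := by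
        intro x y
        by_cases hxy : x = y
        · subst hxy
          rw [hop_diag]
          simp
        · rw [h3 x y hxy]
      simp only [h7, ← Finset.sum_mul, hop_row hG hD]
      rw [Finset.sum_const, Finset.card_univ, ← hn, nsmul_eq_mul, mul_one]
    rw [h1, h6, hc2]
    have h8 := choose_identity n N hn2 hN0 hNn
    have hn1 : (0 : ℝ) < (n : ℝ) - 1 := by
      have : (2 : ℝ) ≤ n := by exact_mod_cast hn2
      linarith
    have h9 : (n : ℝ) * (1 / n.choose N * ((n - 2).choose (N - 1) : ℝ)) =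
        N * (n - N) / (n - 1) := by
      rw [eq_div_iff hn1.ne']
      have h10 : (n : ℝ) * (1 / n.choose N * ((n - 2).choose (N - 1) : ℝ)) * (n - 1) =
          ((n : ℝ) * (n - 1) * ((n - 2).choose (N - 1) : ℝ)) / n.choose N := by ring
      rw [h10, h8]
      field_simp
    rw [h9]
    have h11 : (N : ℝ) * (n - N) / n ≤ N * (n - N) / (n - 1) := by
      refine div_le_div_of_nonneg_left ?_ hn1 (by linarith)
      exact mul_nonneg hN0'.le (by linarith)
    have h12 : (N : ℝ) - N * (n - N) / n = N / n * N := by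
      field_simp
      ring
    have h13 : (D : ℝ) * N - D * (N * (n - N) / (n - 1)) ≤ D * N - D * (N * (n - N) / n) := by
      have := mul_le_mul_of_nonneg_left h11 hD0.le
      linarith
    refine h13.trans (le_of_eq ?_)
    rw [← mul_sub, h12]
    ring
  unfold energy
  have e1 : (D * ((N : ℝ) / n) + w) * N = D * ((N : ℝ) / n) * N + w * N := by ring
  rw [e1]
  exact add_le_add hkin hpot

end Pool.Agent.Run7.h543.Star
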